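import Pool.Agent.U211.BLV.Core

/-!
# The smoothed map: definition and smoothness
-/

set_option autoImplicit false

open Set Filter Topology Metric Function MeasureTheory
open scoped Manifold ContDiff

noncomputable section

namespace Pool.Agent.U211.BLV

open Pool.Agent.Y522 Pool.Agent.U211.BL

variable {n d : ℕ} {X : Type} [TopologicalSpace X] [ChartedSpace (E n) X]

variable {r₀ : ℝ} (K : Ker n r₀) {N : ℕ} (B : Fin N → E n → X) (F : X → E d)
  (c : Fin N → E n → ℝ)

/-- the smoothed map -/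
def Fs (x : X) : E d := F x + ∑ i, wt B i x • (Mi K (B i) F (c i) x - F x)

omit [TopologicalSpace X] [ChartedSpace (E n) X] in
theorem Fs_off {x : X} (hx : ∀ i, x ∉ B i '' closedBall 0 1) : Fs K B F c x = F x := by
  unfold Fs
  rw [Finset.sum_eq_zero, add_zero]
  intro i _
  rw [Mi_off K (hx i), sub_self, smul_zero]

omit [TopologicalSpace X] [ChartedSpace (E n) X] in
theorem Fs_eq_sum {x : X} (hx : ∑ i, wt B i x = 1) :
    Fs K B F c x = ∑ i, wt B i x • Mi K (B i) F (c i) x := by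
  unfold Fs
  simp only [smul_sub]
  rw [Finset.sum_sub_distrib, ← Finset.sum_smul, hx, one_smul, add_sub_cancel]

variable {B F c} (hB : ∀ i, Box (B i)) (hF : Continuous F) (hc : ∀ i, Rad (c i))
include hB hF hc

theorem Mi_close {a ρ₁ δ : ℝ} (i : Fin N) (ha : 0 < a) (hρ1 : 1 ≤ ρ₁)
    (up : ∀ p ∈ closedBall (0 : E n) 2, ∀ q ∈ closedBall (0 : E n) 2,
      ‖F (B i p) - F (B i q)‖ ≤ ρ₁ * (a * ‖p - q‖)) (hδ : ∀ z, a * c i z ≤ δ) (hδ0 : 0 ≤ δ) (x : X) :
    ‖Mi K (B i) F (c i) x - F x‖ ≤ ρ₁ * δ := by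
  by_cases hx : x ∈ B i '' closedBall 0 1
  · obtain ⟨z, hz, rfl⟩ := hx
    rw [mem_closedBall_zero_iff] at hz
    rw [Mi_of K (hB i) (hc i).zero (by linarith)]
    refine (mol_close K (G := fun z => F (B i z)) ha hρ1 (contOn (hB i) hF) up (hc i).nonneg
      (hc i).le (by linarith)).trans ?_
    exact mul_le_mul_of_nonneg_left (hδ z) (by linarith)
  · rw [Mi_off K hx, sub_self, norm_zero]
    positivity

theorem Fs_close {a : Fin N → ℝ} {ρ₁ δ : ℝ} (ha : ∀ i, 0 < a i) (hρ1 : 1 ≤ ρ₁)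
    (up : ∀ i, ∀ p ∈ closedBall (0 : E n) 2, ∀ q ∈ closedBall (0 : E n) 2,
      ‖F (B i p) - F (B i q)‖ ≤ ρ₁ * (a i * ‖p - q‖)) (hδ : ∀ i z, a i * c i z ≤ δ) (hδ0 : 0 ≤ δ)
    (x : X) : ‖Fs K B F c x - F x‖ ≤ ρ₁ * δ := by
  unfold Fs
  rw [add_sub_cancel_left]
  calc ‖∑ i, wt B i x • (Mi K (B i) F (c i) x - F x)‖
      ≤ ∑ i, ‖wt B i x • (Mi K (B i) F (c i) x - F x)‖ := norm_sum_le _ _
    _ ≤ ∑ i, wt B i x * (ρ₁ * δ) := by
        apply Finset.sum_le_sum
        intro i _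
        rw [norm_smul, Real.norm_of_nonneg (wt_nonneg B i x)]
        exact mul_le_mul_of_nonneg_left (Mi_close K hB hF hc i (ha i) hρ1 (up i) (hδ i) hδ0 x)
          (wt_nonneg B i x)
    _ = (∑ i, wt B i x) * (ρ₁ * δ) := by rw [Finset.sum_mul]
    _ ≤ 1 * (ρ₁ * δ) := mul_le_mul_of_nonneg_right (wt_sum_le B x) (by positivity)
    _ = ρ₁ * δ := one_mul _

variable [T2Space X]

/-- smoothness at the points near which `F` is smooth -/
theorem Fs_smooth_LS {x : X} (hx : LS n d F x) : Sm n d (Fs K B F c) x := by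
  have h1 : ContMDiffAt (𝓡 n) (𝓡 d) ∞
      (fun x => ∑ i, wt B i x • (Mi K (B i) F (c i) x - F x)) x := by
    apply contMDiffAt_finsetSum
    intro i _
    exact (wt_smooth B hB i x).smul ((Mi_smooth_LS K (hB i) hF (hc i) hx).sub hx.self_of_nhds)
  exact hx.self_of_nhds.add h1

/-- points where nothing changes -/
theorem Fs_null_box {j : Fin N} {y : E n} (hy : ‖y‖ < 2) (hx : LS n d F (B j y))
    (h0 : ∀ i z, B i z = B j y → c i z = 0) :
    HasFDerivAt (fun y => Fs K B F c (B j y)) (fderiv ℝ (fun y => F (B j y)) y) y := by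
  have hFA : HasFDerivAt (fun y => F (B j y)) (fderiv ℝ (fun y => F (B j y)) y) y :=
    ((ev_smooth (hB j) hy hx).self_of_nhds.differentiableAt (by simp)).hasFDerivAt
  have h1 : ∀ i, HasFDerivAt (fun y => wt B i (B j y) • (Mi K (B i) F (c i) (B j y) - F (B j y)))
      (0 : E n →L[ℝ] E d) y := by
    intro i
    have hw : HasFDerivAt (fun y => wt B i (B j y)) (fderiv ℝ (fun y => wt B i (B j y)) y) y :=
      ((smooth_in_box (hB j) hy.le (wt_smooth B hB i _)).differentiableAt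
        (by simp)).hasFDerivAt
    have hM := Mi_deriv_null K (hB j) (hB i) (hc i) hy hx
      (fun z hz => h0 i z hz.symm)
    have h2 : HasFDerivAt
        (fun y => wt B i (B j y) • (Mi K (B i) F (c i) (B j y) - F (B j y)))
        (wt B i (B j y) • (fderiv ℝ (fun y => F (B j y)) y - fderiv ℝ (fun y => F (B j y)) y) +
          (fderiv ℝ (fun y => wt B i (B j y)) y).smulRight
            (Mi K (B i) F (c i) (B j y) - F (B j y))) y := hw.smul (hM.sub hFA)
    have hval : Mi K (B i) F (c i) (B j y) - F (B j y) = 0 := by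
      by_cases hm : B j y ∈ B i '' closedBall 0 1
      · obtain ⟨z, hz, hzy⟩ := hm
        rw [mem_closedBall_zero_iff] at hz
        rw [← hzy, Mi_of K (hB i) (hc i).zero (by linarith), moll_const K (h0 i z hzy), sub_self]
      · rw [Mi_off K hm, sub_self]
    rw [sub_self, smul_zero, hval, zero_add] at h2
    have h3 : (fderiv ℝ (fun y => wt B i (B j y)) y).smulRight (0 : E d) = 0 := by
      ext v
      simp
    rwa [h3] at h2
  have h2 : HasFDerivAt (fun y => ∑ i, wt B i (B j y) •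
      (Mi K (B i) F (c i) (B j y) - F (B j y))) (∑ _i : Fin N, (0 : E n →L[ℝ] E d)) y :=
    HasFDerivAt.fun_sum fun i _ => h1 i
  rw [Finset.sum_const_zero] at h2
  have h3 := hFA.add h2
  rw [add_zero] at h3
  exact h3

omit hF hc in
/-- off the boxes nothing changes -/
theorem Fs_null_off {x : X} (hj : ∀ j, x ∉ B j '' closedBall 0 (3 / 4)) :
    Fs K B F c =ᶠ[𝓝 x] F := by
  have h1 : ∀ i, ∀ᶠ y in 𝓝 x, y ∉ B i '' closedBall 0 (3 / 4) := fun i =>
    (box_isCompact (hB i) (by norm_num)).isClosed.isOpen_compl.mem_nhds (hj i)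
  filter_upwards [eventually_all.2 h1] with y hy
  unfold Fs
  rw [Finset.sum_eq_zero, add_zero]
  intro i _
  rw [wt_zero B hB (hy i), zero_smul]

end Pool.Agent.U211.BLV
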