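import Pool.Agent.U211.BLV.Tub
import Pool.Agent.Y522.Tools

/-!
# A smooth retraction of a neighbourhood of a closed submanifold of `ℝ^d`
-/

set_option autoImplicit false
set_option linter.unusedSectionVars false

open Set Filter Topology Metric Function
open scoped Manifold ContDiff

noncomputable section

namespace Pool.Agent.U211.BLV

open Pool.Agent.Y522 Pool.Agent.U211.BL

section flat

variable {n d : ℕ}

/-- the gradient in `t` of half the squared distance of `p` and `h t` -/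
def grd (h : E n → E d) (p : E d × E n) : E n :=
  (InnerProductSpace.toDual ℝ (E n)).symm ((innerSL ℝ (p.1 - h p.2)).comp (fderiv ℝ h p.2))

theorem grd_inner (h : E n → E d) (p : E d × E n) (s : E n) :
    inner ℝ (grd h p) s = inner ℝ (p.1 - h p.2) (fderiv ℝ h p.2 s) := by
  unfold grd
  rw [InnerProductSpace.toDual_symm_apply]
  rfl

theorem grd_zero {h : E n → E d} {p : E d × E n}
    (h0 : ∀ s, inner ℝ (p.1 - h p.2) (fderiv ℝ h p.2 s) = (0 : ℝ)) : grd h p = 0 := by
  rw [← inner_self_eq_zero (𝕜 := ℝ), grd_inner]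
  exact h0 _

theorem grd_smooth {h : E n → E d} {p : E d × E n} (hh : ContDiffAt ℝ ∞ h p.2) :
    ContDiffAt ℝ ∞ (grd h) p := by
  have h1 : ContDiffAt ℝ ∞ (fun p : E d × E n => p.1 - h p.2) p :=
    contDiffAt_fst.sub (hh.comp p contDiffAt_snd)
  have h2 : ContDiffAt ℝ ∞ (fun p : E d × E n => innerSL ℝ (p.1 - h p.2)) p :=
    (innerSL ℝ (E := E d)).contDiff.contDiffAt.comp p h1
  have h3 : ContDiffAt ℝ ∞ (fun p : E d × E n => fderiv ℝ h p.2) p :=
    (hh.fderiv_right (m := ∞) (by simp)).comp p contDiffAt_snd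
  have h4 := h2.clm_comp h3
  exact (InnerProductSpace.toDual ℝ (E n)).symm.toContinuousLinearEquiv.contDiff.contDiffAt.comp p h4

/-- the inverse function theorem for the first order condition -/
theorem exists_T {h : E n → E d} {t₀ : E n} (hh : ∀ᶠ t in 𝓝 t₀, ContDiffAt ℝ ∞ h t)
    (hi : ∀ s, fderiv ℝ h t₀ s = 0 → s = 0) :
    ∃ T : E d → E n, (∀ᶠ p in 𝓝 (h t₀), ContDiffAt ℝ ∞ T p) ∧
      ∀ᶠ q in 𝓝 (h t₀, t₀), grd h q = 0 → q.2 = T q.1 := by
  obtain ⟨Θ, hΘ⟩ : ∃ Θ : E d × E n → E d × E n, Θ = fun q => (q.1, grd h q) := ⟨_, rfl⟩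
  have hfin : Module.finrank ℝ (E d × E n) = Module.finrank ℝ (E (d + n)) := by
    simp
  obtain ⟨κ⟩ : Nonempty ((E d × E n) ≃L[ℝ] E (d + n)) :=
    ⟨ContinuousLinearEquiv.ofFinrankEq hfin⟩
  have hsnd : ∀ᶠ q in 𝓝 ((h t₀, t₀) : E d × E n), ContDiffAt ℝ ∞ h q.2 := by
    have : Tendsto (fun q : E d × E n => q.2) (𝓝 (h t₀, t₀)) (𝓝 t₀) := continuous_snd.tendsto _
    exact this.eventually hh
  have hΘs : ∀ q : E d × E n, ContDiffAt ℝ ∞ h q.2 → ContDiffAt ℝ ∞ Θ q := by
    intro q hq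
    rw [hΘ]
    exact contDiffAt_fst.prodMk (grd_smooth hq)
  have hD : HasFDerivAt Θ (fderiv ℝ Θ (h t₀, t₀)) (h t₀, t₀) :=
    ((hΘs _ hh.self_of_nhds).differentiableAt (by simp)).hasFDerivAt
  -- injectivity of the derivative
  have hinj : ∀ v : E d × E n, fderiv ℝ Θ (h t₀, t₀) v = 0 → v = 0 := by
    rintro ⟨a, s⟩ hv
    have h1 : HasFDerivAt (fun q => (Θ q).1) ((ContinuousLinearMap.fst ℝ (E d) (E n)).comp
        (fderiv ℝ Θ (h t₀, t₀))) (h t₀, t₀) :=
      (ContinuousLinearMap.fst ℝ (E d) (E n)).hasFDerivAt.comp _ hD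
    have h2 : (fun q => (Θ q).1) = fun q : E d × E n => q.1 := by
      rw [hΘ]
    rw [h2] at h1
    have h3 := h1.unique hasFDerivAt_fst
    have ha : a = 0 := by
      have h4 := congrArg (fun T : E d × E n →L[ℝ] E d => T (a, s)) h3
      simp only [ContinuousLinearMap.comp_apply, hv, ContinuousLinearMap.coe_fst'] at h4
      simpa using h4.symm
    have hc : HasDerivAt (fun r : ℝ => ((h t₀, t₀ + r • s) : E d × E n)) ((0, s) : E d × E n) 0 := by
      have h5 : HasDerivAt (fun r : ℝ => t₀ + r • s) s 0 := by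
        have := ((hasDerivAt_id (0 : ℝ)).smul_const s).const_add t₀
        simpa using this
      exact (hasDerivAt_const (0 : ℝ) (h t₀)).prodMk h5
    have hD' : HasFDerivAt Θ (fderiv ℝ Θ (h t₀, t₀)) ((h t₀, t₀ + (0 : ℝ) • s) : E d × E n) := by
      rw [zero_smul, add_zero]
      exact hD
    have h6 := hD'.comp_hasDerivAt (0 : ℝ) hc
    have h7 : HasDerivAt (fun r : ℝ => grd h (h t₀, t₀ + r • s)) 0 0 := by
      have h8 := (ContinuousLinearMap.snd ℝ (E d) (E n)).hasFDerivAt.comp_hasDerivAt (0 : ℝ) h6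
      rw [ha] at hv
      rw [hv, map_zero] at h8
      rw [hΘ] at h8
      exact h8
    have h9 : HasDerivAt (fun r : ℝ => (inner ℝ (grd h (h t₀, t₀ + r • s)) s : ℝ)) 0 0 := by
      have h10 := h7.inner ℝ (hasDerivAt_const (0 : ℝ) s)
      simpa using h10
    simp only [grd_inner] at h9
    have hline : HasDerivAt (fun r : ℝ => t₀ + r • s) s 0 := by
      have := ((hasDerivAt_id (0 : ℝ)).smul_const s).const_add t₀
      simpa using this
    have hhd : HasFDerivAt h (fderiv ℝ h t₀) (t₀ + (0 : ℝ) • s) := by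
      rw [zero_smul, add_zero]
      exact (hh.self_of_nhds.differentiableAt (by simp)).hasFDerivAt
    have h11 : HasDerivAt (fun r : ℝ => h t₀ - h (t₀ + r • s)) (-(fderiv ℝ h t₀ s)) 0 := by
      have := (hhd.comp_hasDerivAt (0 : ℝ) hline).const_sub (h t₀)
      exact this
    have hdd : DifferentiableAt ℝ (fderiv ℝ h) (t₀ + (0 : ℝ) • s) := by
      rw [zero_smul, add_zero]
      exact (hh.self_of_nhds.fderiv_right (m := ∞) (by simp)).differentiableAt (by simp)
    have h12 : HasDerivAt (fun r : ℝ => fderiv ℝ h (t₀ + r • s) s)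
        (fderiv ℝ (fderiv ℝ h) (t₀ + (0 : ℝ) • s) s s) 0 := by
      have := (hdd.hasFDerivAt.comp_hasDerivAt (0 : ℝ) hline).clm_apply (hasDerivAt_const (0 : ℝ) s)
      simpa using this
    have h13 := h11.inner ℝ h12
    have h14 := h9.unique h13
    simp only [zero_smul, add_zero, sub_self, inner_zero_left, zero_add, inner_neg_left] at h14
    have h15 : fderiv ℝ h t₀ s = 0 := by
      rw [← inner_self_eq_zero (𝕜 := ℝ)]
      linarith
    rw [ha, hi s h15]
    rfl
  -- transport to a Euclidean space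
  obtain ⟨Θ', hΘ'⟩ : ∃ Θ' : E (d + n) → E (d + n), Θ' = fun z => κ (Θ (κ.symm z)) := ⟨_, rfl⟩
  have hz : κ.symm (κ (h t₀, t₀)) = (h t₀, t₀) := κ.symm_apply_apply _
  have hLD : LD (d + n) Θ' (κ (h t₀, t₀)) := by
    apply LD_of_pos
    · have h1 : ∀ᶠ z in 𝓝 (κ (h t₀, t₀)), ContDiffAt ℝ ∞ h (κ.symm z).2 := by
        have h2 : Tendsto (fun z => κ.symm z) (𝓝 (κ (h t₀, t₀))) (𝓝 (h t₀, t₀)) := by
          have := κ.symm.continuous.tendsto (κ (h t₀, t₀))
          rwa [hz] at this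
        exact h2.eventually hsnd
      filter_upwards [h1] with z hz1
      rw [hΘ']
      exact κ.contDiff.contDiffAt.comp z ((hΘs _ hz1).comp z κ.symm.contDiff.contDiffAt)
    · intro u hu h0
      have h1 : HasFDerivAt Θ (fderiv ℝ Θ (h t₀, t₀)) (κ.symm (κ (h t₀, t₀))) := by
        rw [hz]
        exact hD
      have h2 : HasFDerivAt Θ' ((κ : (E d × E n) →L[ℝ] E (d + n)).comp
          ((fderiv ℝ Θ (h t₀, t₀)).comp (κ.symm : E (d + n) →L[ℝ] (E d × E n)))) (κ (h t₀, t₀)) := by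
        rw [hΘ']
        exact κ.hasFDerivAt.comp _ (h1.comp _ κ.symm.hasFDerivAt)
      rw [h2.fderiv] at h0
      have h3 : κ (fderiv ℝ Θ (h t₀, t₀) (κ.symm u)) = 0 := h0
      have h4 := hinj _ (κ.injective (by rw [h3, map_zero]))
      have h5 : u = 0 := κ.symm.injective (by rw [h4, map_zero])
      rw [h5, norm_zero] at hu
      exact zero_ne_one hu
  obtain ⟨p', hp1, hp2, hp3, -⟩ := hLD.exists_inverse
  have hΘ0 : Θ (h t₀, t₀) = (h t₀, 0) := by
    rw [hΘ]
    simp only [Prod.mk.injEq, true_and]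
    apply grd_zero
    intro s
    simp
  have hΘ0' : Θ' (κ (h t₀, t₀)) = κ (h t₀, 0) := by
    rw [hΘ']
    simp only
    rw [hz, hΘ0]
  refine ⟨fun p => (κ.symm (p' (κ (p, 0)))).2, ?_, ?_⟩
  · have h1 : Tendsto (fun p : E d => κ (p, (0 : E n))) (𝓝 (h t₀)) (𝓝 (κ (h t₀, 0))) :=
      (κ.continuous.comp (by fun_prop : Continuous fun p : E d => (p, (0 : E n)))).tendsto _
    rw [← hΘ0'] at h1
    filter_upwards [h1.eventually hp1.eventually] with p hp
    have h2 : ContDiffAt ℝ ∞ (fun p : E d => κ (p, (0 : E n))) p :=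
      κ.contDiff.contDiffAt.comp p (contDiffAt_id.prodMk contDiffAt_const)
    exact contDiffAt_snd.comp p (κ.symm.contDiff.contDiffAt.comp p (hp.contDiffAt.comp p h2))
  · have h1 : Tendsto (fun q : E d × E n => κ q) (𝓝 (h t₀, t₀)) (𝓝 (κ (h t₀, t₀))) :=
      κ.continuous.tendsto _
    filter_upwards [h1.eventually hp3] with q hq hg
    have h2 : Θ' (κ q) = κ (q.1, 0) := by
      rw [hΘ', hΘ]
      simp only
      rw [κ.symm_apply_apply, hg]
    rw [← h2, hq, κ.symm_apply_apply]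

end flat

variable {n d : ℕ} {Y : Type} [TopologicalSpace Y] [ChartedSpace (E n) Y]
  [IsManifold (𝓡 n) ∞ Y] [CompactSpace Y] [T2Space Y] [Nonempty Y]

/-- **Nearest point retraction.** -/
theorem exists_tub (e : Y → E d) (he : ContMDiff (𝓡 n) (𝓡 d) ∞ e) (hinj : Injective e)
    (himm : ∀ (y : Y) (v : E n),
      fderiv ℝ (fun t => e ((chartAt (E n) y).symm t)) (chartAt (E n) y y) v = 0 → v = 0) :
    ∃ π : E d → Y, Tub n e π := by
  have hmin : ∀ p : E d, ∃ y : Y, ∀ y', ‖p - e y‖ ≤ ‖p - e y'‖ := by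
    intro p
    obtain ⟨y, -, hy⟩ := isCompact_univ.exists_isMinOn (f := fun y => ‖p - e y‖)
      (univ_nonempty (α := Y)) (by
        exact (continuous_const.sub he.continuous).norm.continuousOn)
    exact ⟨y, fun y' => hy (mem_univ y')⟩
  choose π hπ using hmin
  have hretr : ∀ y, π (e y) = y := by
    intro y
    apply hinj
    have h1 := hπ (e y) y
    rw [sub_self, norm_zero] at h1
    have h2 := norm_eq_zero.1 (le_antisymm h1 (norm_nonneg _))
    exact (sub_eq_zero.1 h2).symm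
  have hemb : IsClosedEmbedding e := he.continuous.isClosedEmbedding hinj
  have hcont : ∀ y, ContinuousAt π (e y) := by
    intro y
    rw [ContinuousAt, hretr, hemb.isInducing.tendsto_nhds_iff]
    rw [tendsto_iff_norm_sub_tendsto_zero]
    have h1 : Tendsto (fun p => 2 * ‖p - e y‖) (𝓝 (e y)) (𝓝 0) := by
      have : Continuous fun p : E d => 2 * ‖p - e y‖ := by fun_prop
      have h2 := this.tendsto (e y)
      simpa using h2
    refine squeeze_zero (fun _ => norm_nonneg _) (fun p => ?_) h1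
    have h2 : e (π p) - e y = (p - e y) - (p - e (π p)) := by abel
    simp only [comp_apply]
    rw [h2]
    have h3 := norm_sub_le (p - e y) (p - e (π p))
    have h4 := hπ p y
    linarith
  refine ⟨π, he, hretr, fun y₀ => ?_⟩
  obtain ⟨φ, hφd⟩ : ∃ φ : Y → E n, φ = chartAt (E n) y₀ := ⟨_, rfl⟩
  obtain ⟨A, hAd⟩ : ∃ A : E n → Y, A = (chartAt (E n) y₀).symm := ⟨_, rfl⟩
  have hφ : LD n φ y₀ := by
    rw [hφd]
    exact chart_LD y₀
  have hA1 : LD n A (φ y₀) := by
    rw [hφd, hAd]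
    exact chart_symm_LD y₀
  have hA2 : A (φ y₀) = y₀ := by
    rw [hφd, hAd]
    exact (chartAt (E n) y₀).left_inv (mem_chart_source (E n) y₀)
  have hA3 : ∀ᶠ y in 𝓝 y₀, A (φ y) = y := by
    filter_upwards [(chartAt (E n) y₀).open_source.mem_nhds (mem_chart_source (E n) y₀)] with y hy
    rw [hφd, hAd]
    exact (chartAt (E n) y₀).left_inv hy
  obtain ⟨h, hh⟩ : ∃ h : E n → E d, h = fun t => e (A t) := ⟨_, rfl⟩
  have hhs : ∀ᶠ t in 𝓝 (φ y₀), ContDiffAt ℝ ∞ h t := by
    filter_upwards [hA1.eventually] with t ht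
    rw [hh]
    exact contMDiffAt_iff_contDiffAt.1 ((he _).comp t ht.contMDiffAt)
  have hhi : ∀ s, fderiv ℝ h (φ y₀) s = 0 → s = 0 := by
    intro s hs
    apply himm y₀ s
    rw [hh, hφd, hAd] at hs
    exact hs
  obtain ⟨T, hT1, hT2⟩ := exists_T hhs hhi
  have hh0 : h (φ y₀) = e y₀ := by
    rw [hh]
    simp only
    rw [hA2]
  rw [hh0] at hT1 hT2
  have hφc : ContinuousAt (fun p => φ (π p)) (e y₀) := by
    refine ContinuousAt.comp (g := φ) ?_ (hcont y₀)
    rw [hretr]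
    exact hφ.continuousAt
  have hpair : Tendsto (fun p => (p, φ (π p))) (𝓝 (e y₀)) (𝓝 (e y₀, φ y₀)) := by
    have h1 : Tendsto (fun p => φ (π p)) (𝓝 (e y₀)) (𝓝 (φ (π (e y₀)))) := hφc
    rw [hretr] at h1
    exact tendsto_id.prodMk_nhds h1
  have hπc : Tendsto π (𝓝 (e y₀)) (𝓝 y₀) := by
    have h1 : Tendsto π (𝓝 (e y₀)) (𝓝 (π (e y₀))) := hcont y₀
    rwa [hretr] at h1
  have hφt : Tendsto (fun p => φ (π p)) (𝓝 (e y₀)) (𝓝 (φ y₀)) := hφ.continuousAt.tendsto.comp hπc
  have hkey : ∀ᶠ p in 𝓝 (e y₀), π p = A (T p) := by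
    filter_upwards [hpair.eventually hT2, hπc.eventually hA3, hφt.eventually hhs] with p h1 h2 h3
    rw [← h2]
    congr 1
    apply h1
    apply grd_zero
    intro s
    simp only
    have hd : HasFDerivAt h (fderiv ℝ h (φ (π p))) (φ (π p)) :=
      (h3.differentiableAt (by simp)).hasFDerivAt
    have hd2 : HasFDerivAt (fun t => p - h t) (-(fderiv ℝ h (φ (π p)))) (φ (π p)) :=
      hd.const_sub p
    have hsq := hd2.norm_sq
    have hmin : IsLocalMin (fun t => ‖p - h t‖ ^ 2) (φ (π p)) := by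
      apply Eventually.of_forall
      intro t
      have h4 : ‖p - h (φ (π p))‖ ≤ ‖p - h t‖ := by
        rw [hh]
        simp only
        rw [h2]
        exact hπ p (A t)
      simp only
      gcongr
    have h5 := hmin.hasFDerivAt_eq_zero hsq
    have h6 := congrArg (fun L : E n →L[ℝ] ℝ => L s) h5
    simp at h6
    rw [inner_sub_left]
    linarith
  have hAT : ∀ᶠ p in 𝓝 (e y₀), ContMDiffAt (𝓡 d) (𝓡 n) ∞ (fun p => A (T p)) p := by
    have hTc : Tendsto T (𝓝 (e y₀)) (𝓝 (φ y₀)) := by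
      have h1 : Tendsto T (𝓝 (e y₀)) (𝓝 (T (e y₀))) := hT1.self_of_nhds.continuousAt
      have h2 : φ y₀ = T (e y₀) := by
        apply hT2.self_of_nhds
        apply grd_zero
        intro s
        simp [hh0]
      rwa [← h2] at h1
    filter_upwards [hT1, hTc.eventually hA1.eventually] with p h1 h2
    exact ContMDiffAt.comp (I' := 𝓡 n) (g := A) (f := T) p h2.contMDiffAt
      (contMDiffAt_iff_contDiffAt.2 h1)
  filter_upwards [hkey.eventually_nhds, hAT] with p h1 h2
  exact h2.congr_of_eventuallyEq h1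

end Pool.Agent.U211.BLV
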