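import Pool.Agent.U211.BLV.Deg
import Pool.Agent.U211.BLV.Ret
import Pool.Agent.U211.BL.Final

/-!
# Homeomorphisms of closed manifolds with small distortion
-/

set_option autoImplicit false
set_option linter.unusedSectionVars false

open Set Filter Topology Metric Function
open scoped Manifold ContDiff

noncomputable section

namespace Pool.Agent.U211.BLV

open Pool.Agent.Y522 Pool.Agent.U211.BL

variable {n d : ℕ} {X Y : Type} [TopologicalSpace X] [ChartedSpace (E n) X]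

/-- boxes from parametrizations, inside a given open set -/
theorem exists_box {F : X → E d} {x : X} {ρ₁ α r : ℝ} {A : E n → X} (hA0 : A 0 = x)
    (hAd : LD n A 0) (hα : 0 < α) (hr : 0 < r)
    (h : ∀ p q : E n, ‖p‖ ≤ r → ‖q‖ ≤ r → α * ‖p - q‖ ≤ ‖F (A p) - F (A q)‖ ∧
      ‖F (A p) - F (A q)‖ ≤ ρ₁ * (α * ‖p - q‖)) {U : Set X} (hU : U ∈ 𝓝 x) :
    ∃ (B : E n → X) (b : ℝ), B 0 = x ∧ Box B ∧ BLip F ρ₁ B b ∧ B '' closedBall 0 1 ⊆ U := by
  obtain ⟨s, hs, hsi⟩ := hAd.eventually_injOn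
  have hUA : ∀ᶠ y in 𝓝 (0 : E n), A y ∈ U := by
    have h1 := hAd.continuousAt
    rw [ContinuousAt, hA0] at h1
    exact h1.eventually hU
  obtain ⟨t, ht, hts⟩ := Metric.eventually_nhds_iff_ball.1 ((hAd.eventually.and
    (show ∀ᶠ y in 𝓝 (0 : E n), y ∈ s from hs)).and hUA)
  obtain ⟨τ, hτ⟩ : ∃ τ, τ = min (t / 4) (r / 4) := ⟨_, rfl⟩
  have hτ0 : 0 < τ := by rw [hτ]; exact lt_min (by linarith) (by linarith)
  have hτt : τ ≤ t / 4 := by rw [hτ]; exact min_le_left _ _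
  have hτr : τ ≤ r / 4 := by rw [hτ]; exact min_le_right _ _
  have hnm : ∀ z ∈ closedBall (0 : E n) 2, ‖τ • z‖ ≤ 2 * τ := by
    intro z hz
    rw [mem_closedBall_zero_iff] at hz
    rw [norm_smul, Real.norm_of_nonneg hτ0.le]
    nlinarith
  refine ⟨fun z => A (τ • z), α * τ, by simp only [smul_zero]; exact hA0, ⟨?_, ?_⟩, ⟨?_, ?_, ?_⟩,
    ?_⟩
  · intro z hz w hw hzw
    have h1 := (hts (τ • z) (by rw [mem_ball_zero_iff]; linarith [hnm z hz])).1.2
    have h2 := (hts (τ • w) (by rw [mem_ball_zero_iff]; linarith [hnm w hw])).1.2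
    exact smul_right_injective _ hτ0.ne' (hsi h1 h2 hzw)
  · intro z hz
    have h1 := (hts (τ • z) (by rw [mem_ball_zero_iff]; linarith [hnm z hz])).1.1
    have h2 : LD n (fun y : E n => τ • y) z :=
      LD_linear (ContinuousLinearEquiv.smulLeft (Units.mk0 τ hτ0.ne')) z
    exact LD.comp_fun (g := A) (f := fun y : E n => τ • y) h1 h2
  · positivity
  · intro p hp q hq
    have h1 := (h (τ • p) (τ • q) (by linarith [hnm p hp]) (by linarith [hnm q hq])).1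
    rw [← smul_sub, norm_smul, Real.norm_of_nonneg hτ0.le] at h1
    linarith
  · intro p hp q hq
    have h1 := (h (τ • p) (τ • q) (by linarith [hnm p hp]) (by linarith [hnm q hq])).2
    rw [← smul_sub, norm_smul, Real.norm_of_nonneg hτ0.le] at h1
    refine h1.trans (le_of_eq (by ring))
  · rintro _ ⟨z, hz, rfl⟩
    exact (hts (τ • z) (by
      rw [mem_ball_zero_iff]
      linarith [hnm z (closedBall_subset_closedBall (by norm_num) hz)])).2

variable [T2Space X] [TopologicalSpace Y] [ChartedSpace (E n) Y] [IsManifold (𝓡 n) ∞ Y]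
  [T2Space Y] [IsManifold (𝓡 n) ∞ X]

/-- **The main theorem**, the distortion depends on the point. -/
theorem closed_main [CompactSpace X] [ConnectedSpace X] [CompactSpace Y] (e : Y → E d)
    (he : ContMDiff (𝓡 n) (𝓡 d) ∞ e) (hinj : Injective e)
    (himm : ∀ (y : Y) (v : E n),
      fderiv ℝ (fun t => e ((chartAt (E n) y).symm t)) (chartAt (E n) y y) v = 0 → v = 0)
    (g : X ≃ₜ Y) {U : Set X} (hU : IsOpen U)
    (hgU : ∀ x, x ∉ U → LD n g x)
    (hbl : ∀ x, ¬ LD n g x → ∃ ρ, Good n ρ ∧ ∃ A : E n → X, A 0 = x ∧ LD n A 0 ∧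
      ∃ α r : ℝ, 0 < α ∧ 0 < r ∧
      ∀ p q : E n, ‖p‖ ≤ r → ‖q‖ ≤ r → α * ‖p - q‖ ≤ ‖e (g (A p)) - e (g (A q))‖ ∧
        ‖e (g (A p)) - e (g (A q))‖ ≤ ρ * (α * ‖p - q‖)) {ε : ℝ} (hε : 0 < ε) :
    ∃ Φ : X → Y, Bijective Φ ∧ (∀ x, LD n Φ x) ∧ (∀ x, x ∉ U → Φ x = g x) ∧
      ∀ x, ‖e (Φ x) - e (g x)‖ ≤ ε := by
  have hne : Nonempty Y := by
    obtain ⟨x⟩ := (inferInstance : Nonempty X)
    exact ⟨g x⟩
  obtain ⟨π, hT⟩ := exists_tub e he hinj himm
  obtain ⟨τ, hτ0, hτ⟩ := PP_unif hT one_pos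
  have h4 : ∀ x, ¬ LD n g x → ∃ (B : E n → X) (b ρ : ℝ), B 0 = x ∧ Box B ∧
      BLip (fun x => e (g x)) ρ B b ∧ B '' closedBall 0 1 ⊆ U ∧ Good n ρ := by
    intro x hx
    obtain ⟨ρ, hρ, A, hA0, hAd, α, r, hα, hr, h⟩ := hbl x hx
    have hxU : x ∈ U := by
      by_contra hcon
      exact hx (hgU x hcon)
    obtain ⟨B, b, k1, k2, k3, k4⟩ :=
      exists_box (F := fun x => e (g x)) hA0 hAd hα hr h (hU.mem_nhds hxU)
    exact ⟨B, b, ρ, k1, k2, k3, k4, hρ⟩
  choose! B b ρ hB0 hB hBL hBU hρ using h4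
  have hS : IsCompact {x | ¬ LD n g x} := by
    apply IsClosed.isCompact
    rw [← isOpen_compl_iff, isOpen_iff_mem_nhds]
    intro x hx
    rw [mem_compl_iff, mem_ofPred_eq, not_not] at hx
    filter_upwards [hx.eventually] with y hy hy2
    exact hy2 hy
  have hnb : ∀ x (hx : x ∈ {x | ¬ LD n g x}), B x '' ball 0 (1 / 2) ∈ 𝓝 x := by
    intro x hx
    have h2 : LD n (B x) 0 := (hB x hx).ld 0 (by simp)
    have h3 := h2.image_mem_nhds (ball_mem_nhds (0 : E n) (by norm_num : (0 : ℝ) < 1 / 2))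
    rwa [hB0 x hx] at h3
  obtain ⟨t, ht⟩ := hS.elim_nhds_subcover' (fun x _ => B x '' ball 0 (1 / 2)) hnb
  obtain ⟨ρ₁, ⟨h1, h2, h3⟩, hρ₁⟩ := exists_good (n := n)
    (fun j : Fin t.card => ρ ((t.equivFin.symm j).1 : X))
    (fun j => hρ _ (t.equivFin.symm j).1.2)
  have hBL' : ∀ j : Fin t.card, BLip (fun x => e (g x)) ρ₁ (B ((t.equivFin.symm j).1 : X))
      (b ((t.equivFin.symm j).1 : X)) := by
    intro j
    have h5 := hBL _ (t.equivFin.symm j).1.2
    refine ⟨h5.pos, h5.low, fun p hp q hq => (h5.up p hp q hq).trans ?_⟩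
    exact mul_le_mul_of_nonneg_right (hρ₁ j) (mul_nonneg h5.pos.le (norm_nonneg _))
  obtain ⟨g', g1, g2, g3⟩ := smoothing (N := t.card) hT g g.continuous h1 h2 h3
    (fun j => B ((t.equivFin.symm j).1 : X)) (fun j => b ((t.equivFin.symm j).1 : X))
    (fun j => hB _ (t.equivFin.symm j).1.2) hBL' (by
      intro x hx
      have h2 := ht hx
      rw [mem_iUnion₂] at h2
      obtain ⟨y, hy, hxy⟩ := h2
      exact ⟨t.equivFin ⟨y, hy⟩, by simpa using hxy⟩) (lt_min hε hτ0)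
  have hbij : Bijective g' := bij_of_close hT g g2 (fun y p hp => (hτ y p hp).1)
    (fun x => (g3 x).trans (min_le_right _ _))
  refine ⟨g', hbij, g2, fun x hx => ?_, fun x => (g3 x).trans (min_le_left _ _)⟩
  apply g1
  intro j hj
  exact hx (hBU _ (t.equivFin.symm j).1.2 hj)

end Pool.Agent.U211.BLV
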