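import Pool.Agent.U211.BLV.MI

/-!
# The derivative of the mollified map in another box
-/

set_option autoImplicit false

open Set Filter Topology Metric Function MeasureTheory
open scoped Manifold ContDiff

noncomputable section

namespace Pool.Agent.U211.BLV

open Pool.Agent.Y522 Pool.Agent.U211.BL

variable {n d : ℕ} {X : Type} [TopologicalSpace X] [ChartedSpace (E n) X]

variable {r₀ : ℝ} (K : Ker n r₀)

theorem core (hr0 : 0 < r₀) {A B : E n → X} (hB : Box B) {F : X → E d}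
    (hF : Continuous F) {α b ρ₁ ρ η κ β ε C : ℝ} (hα : 0 < α) (hb : 0 < b) (hρ1 : 1 ≤ ρ₁)
    (lowA : ∀ p ∈ closedBall (0 : E n) 2, ∀ q ∈ closedBall (0 : E n) 2,
      α * ‖p - q‖ ≤ ‖F (A p) - F (A q)‖)
    (upA : ∀ p ∈ closedBall (0 : E n) 2, ∀ q ∈ closedBall (0 : E n) 2,
      ‖F (A p) - F (A q)‖ ≤ ρ₁ * (α * ‖p - q‖))
    (lowB : ∀ p ∈ closedBall (0 : E n) 2, ∀ q ∈ closedBall (0 : E n) 2,
      b * ‖p - q‖ ≤ ‖F (B p) - F (B q)‖)
    (upB : ∀ p ∈ closedBall (0 : E n) 2, ∀ q ∈ closedBall (0 : E n) 2,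
      ‖F (B p) - F (B q)‖ ≤ ρ₁ * (b * ‖p - q‖))
    {c : E n → ℝ} (hc : Rad c) (hlip : ∀ y z, |c y - c z| ≤ β * ‖y - z‖) {y z : E n}
    (hy : ‖y‖ ≤ 3 / 4) (hz : ‖z‖ ≤ 3 / 4) (hyz : A y = B z) (hC : 0 < C) (hcz : c z = C / b)
    (hCα : C / α ≤ 1 / 4)
    (htr : ∀ v : E n, ‖v‖ ≤ C / α → ‖tr A B (y + v)‖ ≤ 2 ∧ B (tr A B (y + v)) = A (y + v) ∧
      ‖tr A B (y + v) - z - fderiv ℝ (tr A B) y v‖ ≤ ε * ‖v‖)
    (hε : ε * b ≤ η * α) (hη0 : 0 ≤ η) (hη1 : η ≤ 1) (hηρ : ρ₁ + η ≤ ρ)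
    (hηρ' : 1 / ρ ≤ 1 / ρ₁ - η) (hρ2 : ρ ≤ 2) (hκ0 : 0 ≤ κ)
    (hκ : κ ≤ 2 - (ρ ^ 2 - 1) * (Real.sqrt n / r₀) / ρ)
    (hηκ : 13 * ρ ^ 2 * η * (Real.sqrt n / r₀) ≤ κ) (hβ : 8 * ρ ^ 2 * β ≤ κ)
    {u : E n} (hu : ‖u‖ = 1) :
    α * C * κ / (4 * ρ) ≤ inner ℝ (fderiv ℝ (Mol K (fun z => F (B z)) c) z
      (fderiv ℝ (tr A B) y u)) (F (A (y + (C / α) • u)) - F (A (y - (C / α) • u))) ∧
    b * ‖fderiv ℝ (tr A B) y u‖ ≤ ρ * α := by
  obtain ⟨v, hv⟩ : ∃ v, v = (C / α) • u := ⟨_, rfl⟩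
  have hCα0 : 0 < C / α := div_pos hC hα
  have hvn : ‖v‖ = C / α := by
    rw [hv, norm_smul, hu, mul_one, Real.norm_of_nonneg hCα0.le]
  obtain ⟨L, hL⟩ : ∃ L, L = fderiv ℝ (tr A B) y := ⟨_, rfl⟩
  rw [← hL, ← hv]
  rw [← hL] at htr
  obtain ⟨p1, p2, p3⟩ := htr v hvn.le
  obtain ⟨m1, m2, m3⟩ := htr (-v) (by rw [norm_neg]; exact hvn.le)
  rw [← sub_eq_add_neg] at m1 m2 m3
  obtain ⟨qp, hqp⟩ : ∃ qp, qp = tr A B (y + v) := ⟨_, rfl⟩
  obtain ⟨qm, hqm⟩ : ∃ qm, qm = tr A B (y - v) := ⟨_, rfl⟩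
  rw [← hqp] at p1 p2 p3
  rw [← hqm] at m1 m2 m3
  rw [hvn] at p3
  rw [norm_neg, hvn] at m3
  have hqpm : qp ∈ closedBall (0 : E n) 2 := by simpa using p1
  have hqmm : qm ∈ closedBall (0 : E n) 2 := by simpa using m1
  have hym : y ∈ closedBall (0 : E n) 2 := by rw [mem_closedBall_zero_iff]; linarith
  have hzm : z ∈ closedBall (0 : E n) 2 := by rw [mem_closedBall_zero_iff]; linarith
  have hyvm : y + v ∈ closedBall (0 : E n) 2 := by
    rw [mem_closedBall_zero_iff]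
    have := norm_add_le y v
    linarith
  have hyvm' : y - v ∈ closedBall (0 : E n) 2 := by
    rw [mem_closedBall_zero_iff]
    have := norm_sub_le y v
    linarith
  have hρ0 : 0 < ρ := by linarith
  have hρ10 : 0 < ρ₁ := by linarith
  have hρρ : ρ₁ ≤ ρ := by linarith
  obtain ⟨g, hg⟩ : ∃ g, g = ‖L u‖ := ⟨_, rfl⟩
  obtain ⟨T, hT⟩ : ∃ T, T = b * g / α := ⟨_, rfl⟩
  have hg0 : 0 ≤ g := hg ▸ norm_nonneg _
  have hT0 : 0 ≤ T := by rw [hT]; positivity
  have hLv : ‖L v‖ = C / b * T := by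
    rw [hv, map_smul, norm_smul, ← hg, Real.norm_of_nonneg hCα0.le, hT]
    field_simp
  have hεb : ε * (C / α) ≤ η * (C / b) := by
    have h1 : ε * (C / α) = (ε * b) * (C / (α * b)) := by field_simp
    have h2 : η * (C / b) = (η * α) * (C / (α * b)) := by field_simp
    rw [h1, h2]
    exact mul_le_mul_of_nonneg_right hε (by positivity)
  -- bounds for `T`
  have hd1 : ‖qp - z‖ ≤ C / b * T + η * (C / b) := by
    have h1 : qp - z = (qp - z - L v) + L v := by abel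
    rw [h1]
    refine (norm_add_le _ _).trans ?_
    rw [hLv]
    linarith
  have hd2 : C / b * T - η * (C / b) ≤ ‖qp - z‖ := by
    have h1 : L v = (qp - z) - (qp - z - L v) := by abel
    have h2 := norm_sub_le (qp - z) (qp - z - L v)
    rw [← h1, hLv] at h2
    linarith
  have hFz : F (B z) = F (A y) := by rw [hyz]
  have hFq : F (B qp) = F (A (y + v)) := by rw [p2]
  have hFq' : F (B qm) = F (A (y - v)) := by rw [m2]
  have hT2 : T ≤ ρ := by
    have h1 := lowB qp hqpm z hzm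
    have h2 := upA (y + v) hyvm y hym
    rw [add_sub_cancel_left, hvn] at h2
    rw [hFq, hFz] at h1
    have h3 : α * (C / α) = C := by field_simp
    rw [h3] at h2
    have h4 : b * (C / b * T - η * (C / b)) ≤ ρ₁ * C :=
      (mul_le_mul_of_nonneg_left hd2 hb.le).trans (h1.trans h2)
    have h5 : b * (C / b * T - η * (C / b)) = (T - η) * C := by field_simp
    rw [h5] at h4
    have h6 := le_of_mul_le_mul_right h4 hC
    linarith
  have hT1 : 1 / ρ ≤ T := by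
    have h1 := upB qp hqpm z hzm
    have h2 := lowA (y + v) hyvm y hym
    rw [add_sub_cancel_left, hvn] at h2
    rw [hFq, hFz] at h1
    have h3 : α * (C / α) = C := by field_simp
    rw [h3] at h2
    have h4 : C ≤ ρ₁ * (b * (C / b * T + η * (C / b))) :=
      h2.trans (h1.trans (by gcongr))
    have h5 : ρ₁ * (b * (C / b * T + η * (C / b))) = (ρ₁ * (T + η)) * C := by field_simp
    rw [h5] at h4
    have h6 : 1 ≤ ρ₁ * (T + η) := by
      have : 1 * C ≤ ρ₁ * (T + η) * C := by linarith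
      exact le_of_mul_le_mul_right this hC
    have h7 : 1 / ρ₁ ≤ T + η := by
      rw [div_le_iff₀ hρ10]
      linarith
    linarith
  have hTpos : 0 < T := lt_of_lt_of_le (by positivity) hT1
  have hgpos : 0 < g := by
    rcases hg0.lt_or_eq with h | h
    · exact h
    · rw [← h, mul_zero, zero_div] at hT
      linarith
  obtain ⟨w, hw⟩ : ∃ w, w = g⁻¹ • L u := ⟨_, rfl⟩
  have hwn : ‖w‖ = 1 := by
    rw [hw, norm_smul, norm_inv, Real.norm_of_nonneg hg0, ← hg, inv_mul_cancel₀ hgpos.ne']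
  have hLu : L u = g • w := by
    rw [hw, smul_smul, mul_inv_cancel₀ hgpos.ne', one_smul]
  have hLvw : (c z * T) • w = L v := by
    rw [hcz, hv, map_smul, hLu, smul_smul, hT]
    congr 1
    field_simp
  have hczpos : 0 < c z := by rw [hcz]; positivity
  have e1 : ‖qp - (z + (c z * T) • w)‖ ≤ η * c z := by
    rw [hLvw, hcz, ← sub_sub]
    linarith
  have e2 : ‖qm - (z - (c z * T) • w)‖ ≤ η * c z := by
    have h1 : qm - (z - (c z * T) • w) = qm - z - L (-v) := by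
      rw [hLvw, map_neg]
      abel
    rw [h1, hcz]
    linarith
  have hupρ : ∀ p ∈ closedBall (0 : E n) 2, ∀ q ∈ closedBall (0 : E n) 2,
      ‖F (B p) - F (B q)‖ ≤ ρ * (b * ‖p - q‖) := fun p hp q hq =>
    (upB p hp q hq).trans (mul_le_mul_of_nonneg_right hρρ (by positivity))
  have hde := deriv_est K hr0 (G := fun z => F (B z)) hb (by linarith : (1 : ℝ) ≤ ρ)
    (contOn hB hF) hc.smooth hc.nonneg hc.le (fun z hz => hc.zero z hz.le) hlip hczpos hwn hT0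
    (by linarith) hη0 hη1 hqpm hqmm lowB hupρ e1 e2
  have hq0 : 0 ≤ Real.sqrt n / r₀ := by positivity
  have hxi := xi_bound (by linarith : (1 : ℝ) ≤ ρ) hT1 hT2 hq0 hκ0 hκ hηκ
  simp only [hFq, hFq'] at hde
  obtain ⟨e, he⟩ : ∃ e, e = F (A (y + v)) - F (A (y - v)) := ⟨_, rfl⟩
  rw [← he] at hde ⊢
  have hen : ‖e‖ ≤ 2 * ρ * C := by
    have h1 := upA (y + v) hyvm (y - v) hyvm'
    have h2 : y + v - (y - v) = (2 : ℝ) • v := by rw [two_smul]; abel
    rw [h2, norm_smul, hvn, ← he] at h1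
    refine h1.trans ?_
    have h3 : ρ₁ * (α * (‖(2 : ℝ)‖ * (C / α))) = 2 * ρ₁ * C := by
      rw [Real.norm_of_nonneg (by norm_num)]
      field_simp
    rw [h3]
    gcongr
  have hβ0 : 0 ≤ β := by
    by_contra hcon
    push Not at hcon
    have h1 := hlip (z + w) z
    rw [add_sub_cancel_left, hwn, mul_one] at h1
    linarith [abs_nonneg (c (z + w) - c z)]
  have h10 : ρ * b * β * ‖e‖ ≤ b * C * κ / 4 := by
    calc ρ * b * β * ‖e‖ ≤ ρ * b * β * (2 * ρ * C) := by gcongr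
      _ = (8 * ρ ^ 2 * β) * (b * C / 4) := by ring
      _ ≤ κ * (b * C / 4) := mul_le_mul_of_nonneg_right hβ (by positivity)
      _ = b * C * κ / 4 := by ring
  have h11 : b ^ 2 * c z / 2 * κ ≤ b ^ 2 * c z / 2 * (2 * T * (1 + ρ ^ 2) -
      ((ρ ^ 2 - 1) * (1 + T ^ 2) + 13 * ρ ^ 2 * η) * (Real.sqrt n / r₀)) :=
    mul_le_mul_of_nonneg_left hxi (by positivity)
  have h12 : b ^ 2 * c z / 2 * κ = b * C * κ / 2 := by
    rw [hcz]
    field_simp
  have h13 : b * C * κ / 4 ≤ inner ℝ (fderiv ℝ (Mol K (fun z => F (B z)) c) z w) e := by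
    linarith
  rw [hLu, map_smul, inner_smul_left, conj_trivial]
  have h14 : α * C * κ / (4 * ρ) ≤ g * (b * C * κ / 4) := by
    have h15 : g = T * α / b := by rw [hT]; field_simp
    rw [h15]
    have h16 : T * α / b * (b * C * κ / 4) = T * (α * C * κ / 4) := by field_simp
    have h17 : α * C * κ / (4 * ρ) = 1 / ρ * (α * C * κ / 4) := by field_simp
    rw [h16, h17]
    exact mul_le_mul_of_nonneg_right hT1 (by positivity)
  refine ⟨h14.trans (mul_le_mul_of_nonneg_left h13 hg0), ?_⟩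
  rw [norm_smul, hwn, mul_one, Real.norm_of_nonneg hg0]
  rw [hT, div_le_iff₀ hα] at hT2
  exact hT2

end Pool.Agent.U211.BLV
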