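import Pool.Agent.U211.BLV.Glob

/-!
# A local homeomorphism close to a homeomorphism is a homeomorphism
-/

set_option autoImplicit false
set_option linter.unusedSectionVars false

open Set Filter Topology Metric Function
open scoped Manifold ContDiff unitInterval

noncomputable section

namespace Pool.Agent.U211.BLV

open Pool.Agent.Y522 Pool.Agent.U211.BL

/-- a covering homotopic to a homeomorphism is bijective -/
theorem bij_of_homotopic {X Y : Type} [TopologicalSpace X] [TopologicalSpace Y] [CompactSpace X]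
    [T2Space X] [ConnectedSpace X] [T2Space Y] (g : X ≃ₜ Y) {g' : X → Y}
    (hg' : IsLocalHomeomorph g') (H : C(I × X, Y)) (h0 : ∀ x, H (0, x) = g' x)
    (h1 : ∀ x, H (1, x) = g x) : Bijective g' := by
  have hcov : IsCoveringMap g' := isLocalHomeomorph_iff_isCoveringMap.1 hg'
  obtain ⟨L, hL⟩ : ∃ L, L = hcov.liftHomotopy H (ContinuousMap.id X) h0 := ⟨_, rfl⟩
  have hlift : g' ∘ L = H := by
    rw [hL]
    exact hcov.liftHomotopy_lifts H (ContinuousMap.id X) h0
  obtain ⟨s, hs⟩ : ∃ s : Y → X, s = fun y => L (1, g.symm y) := ⟨_, rfl⟩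
  have hsc : Continuous s := by
    rw [hs]
    exact L.continuous.comp (by fun_prop)
  have hgs : ∀ y, g' (s y) = y := by
    intro y
    rw [hs]
    have h2 := congrFun hlift (1, g.symm y)
    simp only [comp_apply] at h2
    rw [h2, h1, g.apply_symm_apply]
  have hid : g' ∘ s = id := funext hgs
  have hsl : IsLocalHomeomorph s :=
    IsLocalHomeomorph.of_comp (by rw [hid]; exact (Homeomorph.refl Y).isLocalHomeomorph) hg' hsc
  have : CompactSpace Y := g.compactSpace
  have hopen : IsOpen (range s) := hsl.isOpenMap.isOpen_range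
  have hclosed : IsClosed (range s) := (isCompact_range hsc).isClosed
  have hne : (range s).Nonempty := by
    obtain ⟨x⟩ := (inferInstance : Nonempty X)
    exact ⟨s (g x), mem_range_self _⟩
  have huniv : range s = univ := IsClopen.eq_univ ⟨hclosed, hopen⟩ hne
  constructor
  · intro a b hab
    obtain ⟨y, rfl⟩ : a ∈ range s := huniv ▸ mem_univ a
    obtain ⟨z, rfl⟩ : b ∈ range s := huniv ▸ mem_univ b
    rw [hgs, hgs] at hab
    rw [hab]
  · exact fun y => ⟨s y, hgs y⟩

variable {n d : ℕ} {X Y : Type} [TopologicalSpace X] [ChartedSpace (E n) X] [T2Space X]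
  [TopologicalSpace Y] [ChartedSpace (E n) Y] [IsManifold (𝓡 n) ∞ Y] [T2Space Y]
  {e : Y → E d} {π : E d → Y}

theorem bij_of_close [CompactSpace X] [ConnectedSpace X] (hT : Tub n e π) (g : X ≃ₜ Y)
    {g' : X → Y} (hg' : ∀ x, LD n g' x) {τ : ℝ}
    (hτ : ∀ y : Y, ∀ p : E d, ‖p - e y‖ ≤ τ → ContMDiffAt (𝓡 d) (𝓡 n) ∞ π p)
    (hcl : ∀ x, ‖e (g' x) - e (g x)‖ ≤ τ) : Bijective g' := by
  have hld : IsLocalDiffeomorph (𝓡 n) (𝓡 n) ∞ g' := fun x => hg' x
  have hloc : IsLocalHomeomorph g' := hld.isLocalHomeomorph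
  have hc' : Continuous g' := hloc.continuous
  have hec := hT.smooth.continuous
  obtain ⟨q, hq⟩ : ∃ q : I × X → E d, q = fun p =>
    (1 - (p.1 : ℝ)) • e (g' p.2) + (p.1 : ℝ) • e (g p.2) := ⟨_, rfl⟩
  have hqc : Continuous q := by
    rw [hq]
    exact ((continuous_const.sub (continuous_subtype_val.comp continuous_fst)).smul
      (hec.comp (hc'.comp continuous_snd))).add
      ((continuous_subtype_val.comp continuous_fst).smul (hec.comp (g.continuous.comp continuous_snd)))
  have hqτ : ∀ p, ‖q p - e (g p.2)‖ ≤ τ := by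
    rintro ⟨t, x⟩
    have h1 : q (t, x) - e (g x) = (1 - (t : ℝ)) • (e (g' x) - e (g x)) := by
      rw [hq]
      simp only [smul_sub, sub_smul, one_smul]
      abel
    show ‖q (t, x) - e (g x)‖ ≤ τ
    rw [h1, norm_smul, Real.norm_of_nonneg (by linarith [t.2.2])]
    have h2 : (1 - (t : ℝ)) * ‖e (g' x) - e (g x)‖ ≤ 1 * ‖e (g' x) - e (g x)‖ :=
      mul_le_mul_of_nonneg_right (by linarith [t.2.1]) (norm_nonneg _)
    rw [one_mul] at h2
    exact h2.trans (hcl x)
  have hHc : Continuous fun p => π (q p) := by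
    rw [continuous_iff_continuousAt]
    intro p
    exact ContinuousAt.comp (hτ _ _ (hqτ p)).continuousAt hqc.continuousAt
  refine bij_of_homotopic g hloc ⟨fun p => π (q p), hHc⟩ ?_ ?_
  · intro x
    show π (q (0, x)) = g' x
    rw [hq]
    simp [hT.retr]
  · intro x
    show π (q (1, x)) = g x
    rw [hq]
    simp [hT.retr]

end Pool.Agent.U211.BLV
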