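import Pool.Agent.U211.BLV.Der
import Pool.Agent.U211.BL.Der2

/-!
# The derivative of the mollification of a bi-Lipschitz map, variable radius
-/

set_option autoImplicit false

open Set Filter Topology Metric Function MeasureTheory
open scoped Manifold ContDiff Convolution

noncomputable section

namespace Pool.Agent.U211.BLV

open Pool.Agent.Y522 Pool.Agent.U211.BL

variable {n d : ℕ} {r₀ : ℝ} (K : Ker n r₀)

theorem k_smul_integrable {f : E n → E d} (hf : ContinuousOn f (closedBall 0 1)) :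
    Integrable (fun s => K.k s • f s) := by
  have h1 : IntegrableOn (fun s => K.k s • f s) (closedBall (0 : E n) 1) :=
    (K.cont.continuousOn.smul hf).integrableOn_compact (isCompact_closedBall _ _)
  rwa [integrableOn_iff_integrable_of_support_subset] at h1
  intro s hs
  rw [mem_closedBall_zero_iff]
  refine (K.lt ?_).le
  intro h
  apply hs
  change K.k s • f s = 0
  rw [h, zero_smul]

theorem g_smul_integrable {f : E n → E d} (hf : ContinuousOn f (closedBall 0 1)) (w : E n) :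
    Integrable (fun s => (K.g s * inner ℝ s w) • f s) := by
  have h1 : IntegrableOn (fun s => (K.g s * inner ℝ s w) • f s) (closedBall (0 : E n) 1) := by
    apply ContinuousOn.integrableOn_compact (isCompact_closedBall _ _)
    have h2 : ContinuousOn (fun s : E n => K.g s * inner ℝ s w) (closedBall 0 1) :=
      (K.gcont.mul (by fun_prop)).continuousOn
    exact ContinuousOn.smul h2 hf
  rwa [integrableOn_iff_integrable_of_support_subset] at h1
  intro s hs
  rw [mem_closedBall_zero_iff]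
  by_contra h
  apply hs
  change (K.g s * inner ℝ s w) • f s = 0
  rw [K.gzero s (not_le.1 h), zero_mul, zero_smul]

/-- the difference of two mollifications with different radii -/
theorem mol_sub_le {G : E n → E d} {a ρ : ℝ} (ha : 0 < a) (hρ : 1 ≤ ρ)
    (hG : ContinuousOn G (closedBall 0 2))
    (hup : ∀ p ∈ closedBall (0 : E n) 2, ∀ q ∈ closedBall (0 : E n) 2,
      ‖G p - G q‖ ≤ ρ * (a * ‖p - q‖)) {y : E n} (hy : ‖y‖ ≤ 3 / 2) {b b' : ℝ}
    (hb : 0 ≤ b) (hb1 : b ≤ 1 / 4) (hb' : 0 ≤ b') (hb1' : b' ≤ 1 / 4) :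
    ‖(∫ s, K.k s • G (y + b • s)) - ∫ s, K.k s • G (y + b' • s)‖ ≤ ρ * a * |b - b'| := by
  have hc : ∀ b : ℝ, 0 ≤ b → b ≤ 1 / 4 →
      ContinuousOn (fun s => G (y + b • s)) (closedBall (0 : E n) 1) := by
    intro b hb hb1
    apply hG.comp (by fun_prop)
    intro s hs
    exact pt_mem hb hb1 hy (by simpa using hs)
  rw [← integral_sub (k_smul_integrable K (hc b hb hb1)) (k_smul_integrable K (hc b' hb' hb1'))]
  have hle : ∀ s : E n, ‖K.k s • G (y + b • s) - K.k s • G (y + b' • s)‖ ≤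
      K.k s * (ρ * a * |b - b'|) := by
    intro s
    rw [← smul_sub, norm_smul, Real.norm_of_nonneg (K.nonneg s)]
    by_cases hs : K.k s = 0
    · rw [hs, zero_mul, zero_mul]
    apply mul_le_mul_of_nonneg_left _ (K.nonneg s)
    have hs1 := (K.lt hs).le
    refine (hup _ (pt_mem hb hb1 hy hs1) _ (pt_mem hb' hb1' hy hs1)).trans ?_
    have h1 : y + b • s - (y + b' • s) = (b - b') • s := by
      rw [add_sub_add_left_eq_sub, sub_smul]
    rw [h1, norm_smul, Real.norm_eq_abs]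
    have h2 : |b - b'| * ‖s‖ ≤ |b - b'| * 1 := mul_le_mul_of_nonneg_left hs1 (abs_nonneg _)
    calc ρ * (a * (|b - b'| * ‖s‖)) ≤ ρ * (a * (|b - b'| * 1)) := by gcongr
      _ = _ := by ring
  calc ‖∫ s, (K.k s • G (y + b • s) - K.k s • G (y + b' • s))‖
      ≤ ∫ s, K.k s * (ρ * a * |b - b'|) :=
        norm_integral_le_of_norm_le (K.integrable.mul_const _) (Eventually.of_forall hle)
    _ = ρ * a * |b - b'| := by rw [integral_mul_const, K.int, one_mul]

/-- the mollification is close to the function -/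
theorem mol_close {G : E n → E d} {c : E n → ℝ} {a ρ : ℝ} (ha : 0 < a) (hρ : 1 ≤ ρ)
    (hG : ContinuousOn G (closedBall 0 2))
    (hup : ∀ p ∈ closedBall (0 : E n) 2, ∀ q ∈ closedBall (0 : E n) 2,
      ‖G p - G q‖ ≤ ρ * (a * ‖p - q‖)) (h0 : ∀ z, 0 ≤ c z) (h14 : ∀ z, c z ≤ 1 / 4)
    {z : E n} (hz : ‖z‖ ≤ 3 / 2) : ‖Mol K G c z - G z‖ ≤ ρ * (a * c z) := by
  have h1 := mol_sub_le K ha hρ hG hup hz (h0 z) (h14 z) (le_refl 0) (by norm_num : (0 : ℝ) ≤ 1 / 4)
  have h2 : ∫ s, K.k s • G (z + (0 : ℝ) • s) = G z := by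
    have : ∀ s, K.k s • G (z + (0 : ℝ) • s) = K.k s • G z := by
      intro s
      rw [zero_smul, add_zero]
    simp only [this]
    rw [integral_smul_const, K.int, one_smul]
  rw [h2, sub_zero, abs_of_nonneg (h0 z)] at h1
  calc ‖Mol K G c z - G z‖ ≤ ρ * a * c z := h1
    _ = _ := by ring

theorem deriv_est (hr0 : 0 < r₀) {G : E n → E d} {c : E n → ℝ} {z w qp qm : E n}
    {a ρ T η β : ℝ} (ha : 0 < a) (hρ : 1 ≤ ρ)
    (hG : ContinuousOn G (closedBall 0 2)) (hc : ContDiff ℝ ∞ c) (h0 : ∀ z, 0 ≤ c z)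
    (h14 : ∀ z, c z ≤ 1 / 4) (hsupp : ∀ z, 1 < ‖z‖ → c z = 0)
    (hlip : ∀ y z, |c y - c z| ≤ β * ‖y - z‖) (hz : 0 < c z) (hw : ‖w‖ = 1)
    (hT : 0 ≤ T) (hT2 : T ≤ 2) (hη0 : 0 ≤ η) (hη1 : η ≤ 1)
    (hqp : qp ∈ closedBall (0 : E n) 2) (hqm : qm ∈ closedBall (0 : E n) 2)
    (hlow : ∀ p ∈ closedBall (0 : E n) 2, ∀ q ∈ closedBall (0 : E n) 2,
      a * ‖p - q‖ ≤ ‖G p - G q‖)
    (hup : ∀ p ∈ closedBall (0 : E n) 2, ∀ q ∈ closedBall (0 : E n) 2,
      ‖G p - G q‖ ≤ ρ * (a * ‖p - q‖))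
    (hqp' : ‖qp - (z + (c z * T) • w)‖ ≤ η * c z) (hqm' : ‖qm - (z - (c z * T) • w)‖ ≤ η * c z) :
    a ^ 2 * c z / 2 * (2 * T * (1 + ρ ^ 2) - ((ρ ^ 2 - 1) * (1 + T ^ 2) + 13 * ρ ^ 2 * η) *
      (Real.sqrt n / r₀)) - ρ * a * β * ‖G qp - G qm‖ ≤
      inner ℝ (fderiv ℝ (Mol K G c) z w) (G qp - G qm) := by
  obtain ⟨e, he⟩ : ∃ e, e = G qp - G qm := ⟨_, rfl⟩
  obtain ⟨h, hh⟩ : ∃ h, h = c z := ⟨_, rfl⟩
  have hh0 : 0 < h := by rw [hh]; exact hz
  have hh1 : h ≤ 1 / 4 := by rw [hh]; exact h14 z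
  have hz1 : ‖z‖ ≤ 1 := by
    by_contra h
    push Not at h
    rw [hsupp z h] at hz
    exact lt_irrefl _ hz
  have hβ : 0 ≤ β := by
    by_contra hcon
    push Not at hcon
    have h1 := hlip (z + w) z
    rw [add_sub_cancel_left, hw, mul_one] at h1
    linarith [abs_nonneg (c (z + w) - c z)]
  obtain ⟨G₁, hG₁⟩ : ∃ G₁, G₁ = (closedBall (0 : E n) 2).indicator G := ⟨_, rfl⟩
  have hint : Integrable G₁ := by
    rw [hG₁, integrable_indicator_iff measurableSet_closedBall]
    exact hG.integrableOn_compact (isCompact_closedBall _ _)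
  obtain ⟨D, hD, hDw⟩ := moll_hasFDerivAt K hint.locallyIntegrable hh0 z
  have hGs : ∀ y s : E n, ‖y‖ ≤ 3 / 2 → ‖s‖ ≤ 1 → G₁ (y + h • s) = G (y + h • s) := by
    intro y s hy hs
    rw [hG₁, indicator_of_mem]
    exact pt_mem hh0.le hh1 hy hs
  have hG1c : ContinuousOn (fun s => G (z + h • s)) (closedBall (0 : E n) 1) := by
    apply hG.comp (by fun_prop)
    intro s hs
    exact pt_mem hh0.le hh1 (by linarith) (by simpa using hs)
  -- the derivative for constant radius
  have hDw1 : inner ℝ (D w) e = h⁻¹ * ∫ s, K.g s * (inner ℝ s w * inner ℝ (G (z + h • s)) e) := by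
    rw [hDw w]
    have h1 : ∀ s, (K.g s * inner ℝ s w) • G₁ (z + h • s) =
        (K.g s * inner ℝ s w) • G (z + h • s) := by
      intro s
      by_cases hs : K.g s = 0
      · rw [hs, zero_mul, zero_smul, zero_smul]
      · rw [hGs z s (by linarith)]
        by_contra hcon
        exact hs (K.gzero s (not_le.1 hcon))
    simp only [h1]
    rw [inner_smul_left, conj_trivial, real_inner_comm,
      ← integral_inner (g_smul_integrable K hG1c w)]
    congr 2
    funext s
    rw [inner_smul_right, real_inner_comm (G (z + h • s)) e]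
    ring
  have hS : closedBall z h ⊆ closedBall (0 : E n) 2 := by
    apply closedBall_subset_closedBall'
    rw [dist_zero_right]
    linarith
  have hmain := main_est K hr0 ha hρ hh0 hw hT hT2 hη0 hη1 hS hG hqp hqm hlow hup
    (by rw [hh]; exact hqp') (by rw [hh]; exact hqm')
  rw [← he] at hmain
  -- comparison of the derivatives
  have hM : HasFDerivAt (Mol K G c) (fderiv ℝ (Mol K G c) z) z :=
    ((moll_pos K hG hc h14 hsupp hz).differentiableAt (by simp)).hasFDerivAt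
  have hsub := hM.sub hD
  have hle : ‖fderiv ℝ (Mol K G c) z - D‖ ≤ ρ * a * β := by
    apply hsub.le_of_lip' (by positivity)
    have hev : ∀ᶠ y in 𝓝 z, ‖y‖ < 3 / 2 :=
      continuous_norm.continuousAt.eventually_lt_const (by linarith)
    have hk : ∀ y : E n, ‖y‖ ≤ 3 / 2 → ∫ s, K.k s • G₁ (y + h • s) = ∫ s, K.k s • G (y + h • s) := by
      intro y hy
      congr 1
      funext s
      by_cases hs : K.k s = 0
      · rw [hs, zero_smul, zero_smul]
      · rw [hGs y s hy (K.lt hs).le]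
    filter_upwards [hev] with y hy
    have h1 : Mol K G c z - ∫ s, K.k s • G₁ (z + h • s) = 0 := by
      rw [hk z (by linarith), hh]
      exact sub_self _
    have h2 := mol_sub_le K ha hρ hG hup hy.le (h0 y) (h14 y) hh0.le hh1
    show ‖(Mol K G c y - ∫ s, K.k s • G₁ (y + h • s)) - (Mol K G c z -
      ∫ s, K.k s • G₁ (z + h • s))‖ ≤ _
    rw [h1, sub_zero, hk y hy.le]
    refine h2.trans ?_
    rw [hh, mul_assoc (ρ * a) β]
    exact mul_le_mul_of_nonneg_left (hlip y z) (by positivity)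
  have h3 : inner ℝ (fderiv ℝ (Mol K G c) z w) e =
      inner ℝ (D w) e + inner ℝ ((fderiv ℝ (Mol K G c) z - D) w) e := by
    rw [← inner_add_left]
    congr 1
    simp
  have h4 : -(ρ * a * β * ‖e‖) ≤ inner ℝ ((fderiv ℝ (Mol K G c) z - D) w) e := by
    have h5 : |(inner ℝ ((fderiv ℝ (Mol K G c) z - D) w) e : ℝ)| ≤ ρ * a * β * ‖e‖ := by
      refine (abs_real_inner_le_norm _ _).trans ?_
      apply mul_le_mul_of_nonneg_right _ (norm_nonneg _)
      refine ((fderiv ℝ (Mol K G c) z - D).le_opNorm w).trans ?_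
      rw [hw, mul_one]
      exact hle
    exact (abs_le.1 h5).1
  rw [← he, h3, hDw1, ← hh]
  have h6 := mul_le_mul_of_nonneg_left hmain (inv_pos.2 hh0).le
  have h7 : h⁻¹ * (a ^ 2 * h ^ 2 / 2 * (2 * T * (1 + ρ ^ 2) - ((ρ ^ 2 - 1) * (1 + T ^ 2) +
      13 * ρ ^ 2 * η) * (Real.sqrt n / r₀))) = a ^ 2 * h / 2 * (2 * T * (1 + ρ ^ 2) -
      ((ρ ^ 2 - 1) * (1 + T ^ 2) + 13 * ρ ^ 2 * η) * (Real.sqrt n / r₀)) := by
    have h8 : h⁻¹ * h ^ 2 = h := by
      rw [sq, inv_mul_cancel_left₀ hh0.ne']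
    calc _ = a ^ 2 * (h⁻¹ * h ^ 2) / 2 * (2 * T * (1 + ρ ^ 2) - ((ρ ^ 2 - 1) * (1 + T ^ 2) +
      13 * ρ ^ 2 * η) * (Real.sqrt n / r₀)) := by ring
      _ = _ := by rw [h8]
  rw [h7] at h6
  linarith

/-- an upper bound for the derivative of the mollification, after a linear map -/
theorem mol_fderiv_le {G : E n → E d} {c : E n → ℝ} {z : E n} {Λ β r : ℝ}
    (hG : ContinuousOn G (closedBall 0 2)) (hc : ContDiff ℝ ∞ c) (h0 : ∀ z, 0 ≤ c z)
    (h14 : ∀ z, c z ≤ 1 / 4) (hsupp : ∀ z, 1 < ‖z‖ → c z = 0)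
    (hlip : ∀ y z, |c y - c z| ≤ β * ‖y - z‖) (hz : 0 < c z) (hβ : 0 ≤ β) (hΛ : 0 ≤ Λ)
    (hr : c z < r) (Q : E d →L[ℝ] E d)
    (hQ : ∀ p ∈ closedBall z r, ∀ q ∈ closedBall z r, ‖Q (G p - G q)‖ ≤ Λ * ‖p - q‖) (w : E n) :
    ‖Q (fderiv ℝ (Mol K G c) z w)‖ ≤ Λ * (1 + β) * ‖w‖ := by
  have hz1 : ‖z‖ ≤ 1 := by
    by_contra h
    push Not at h
    rw [hsupp z h] at hz
    exact lt_irrefl _ hz
  have hM : HasFDerivAt (Mol K G c) (fderiv ℝ (Mol K G c) z) z :=
    ((moll_pos K hG hc h14 hsupp hz).differentiableAt (by simp)).hasFDerivAt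
  have hQM : HasFDerivAt (fun y => Q (Mol K G c y)) (Q.comp (fderiv ℝ (Mol K G c) z)) z :=
    Q.hasFDerivAt.comp z hM
  have hC0 : 0 ≤ Λ * (1 + β) := by positivity
  have hle : ‖Q.comp (fderiv ℝ (Mol K G c) z)‖ ≤ Λ * (1 + β) := by
    apply hQM.le_of_lip' hC0
    have h1 : ∀ᶠ y in 𝓝 z, ‖y‖ < 3 / 2 :=
      continuous_norm.continuousAt.eventually_lt_const (by linarith)
    have h2 : ∀ᶠ y in 𝓝 z, ‖y - z‖ + c y < r := by
      have hcn : Continuous fun y => ‖y - z‖ + c y :=
        (continuous_id.sub continuous_const).norm.add hc.continuous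
      apply hcn.continuousAt.eventually_lt_const
      simpa using hr
    filter_upwards [h1, h2] with y hy1 hy2
    have hcont : ∀ x : E n, ‖x‖ ≤ 3 / 2 →
        ContinuousOn (fun s => G (x + c x • s)) (closedBall (0 : E n) 1) := by
      intro x hx
      apply hG.comp (by fun_prop)
      intro s hs
      exact pt_mem (h0 x) (h14 x) hx (by simpa using hs)
    have hiy := k_smul_integrable K (hcont y hy1.le)
    have hiz := k_smul_integrable K (hcont z (by linarith))
    have h3 : Q (Mol K G c y) - Q (Mol K G c z) =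
        ∫ s, K.k s • Q (G (y + c y • s) - G (z + c z • s)) := by
      rw [← map_sub]
      unfold Mol
      have h5 := Q.integral_comp_comm (hiy.sub hiz)
      simp only [Pi.sub_apply] at h5
      rw [← integral_sub hiy hiz, ← h5]
      congr 1
      funext s
      rw [← smul_sub, map_smul]
    have h4 : ∀ s, ‖K.k s • Q (G (y + c y • s) - G (z + c z • s))‖ ≤
        K.k s * (Λ * (1 + β) * ‖y - z‖) := by
      intro s
      rw [norm_smul, Real.norm_of_nonneg (K.nonneg s)]
      by_cases hs : K.k s = 0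
      · rw [hs, zero_mul, zero_mul]
      apply mul_le_mul_of_nonneg_left _ (K.nonneg s)
      have hs1 := (K.lt hs).le
      have m1 : y + c y • s ∈ closedBall z r := by
        rw [mem_closedBall, dist_eq_norm]
        have : y + c y • s - z = (y - z) + c y • s := by abel
        rw [this]
        calc ‖(y - z) + c y • s‖ ≤ ‖y - z‖ + ‖c y • s‖ := norm_add_le _ _
          _ = ‖y - z‖ + c y * ‖s‖ := by rw [norm_smul, Real.norm_of_nonneg (h0 y)]
          _ ≤ ‖y - z‖ + c y * 1 := by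
              gcongr
              exact h0 y
          _ ≤ r := by linarith
      have m2 : z + c z • s ∈ closedBall z r := by
        rw [mem_closedBall, dist_eq_norm, add_sub_cancel_left, norm_smul,
          Real.norm_of_nonneg (h0 z)]
        nlinarith
      refine (hQ _ m1 _ m2).trans ?_
      rw [mul_assoc]
      apply mul_le_mul_of_nonneg_left _ hΛ
      have h5 : y + c y • s - (z + c z • s) = (y - z) + (c y - c z) • s := by
        rw [sub_smul]
        abel
      rw [h5]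
      calc ‖(y - z) + (c y - c z) • s‖ ≤ ‖y - z‖ + ‖(c y - c z) • s‖ := norm_add_le _ _
        _ = ‖y - z‖ + |c y - c z| * ‖s‖ := by rw [norm_smul, Real.norm_eq_abs]
        _ ≤ ‖y - z‖ + β * ‖y - z‖ * 1 := by
            gcongr
            exact hlip y z
        _ = (1 + β) * ‖y - z‖ := by ring
    rw [h3]
    calc ‖∫ s, K.k s • Q (G (y + c y • s) - G (z + c z • s))‖
        ≤ ∫ s, K.k s * (Λ * (1 + β) * ‖y - z‖) :=
          norm_integral_le_of_norm_le (K.integrable.mul_const _) (Eventually.of_forall h4)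
      _ = Λ * (1 + β) * ‖y - z‖ := by rw [integral_mul_const, K.int, one_mul]
  exact (Q.comp (fderiv ℝ (Mol K G c) z)).le_of_opNorm_le hle w

end Pool.Agent.U211.BLV
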