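import Pool.Agent.U211.BLV.Imm

/-!
# Smoothing of locally bi-Lipschitz maps with small distortion into a closed manifold
-/

set_option autoImplicit false
set_option linter.unusedSectionVars false

open Set Filter Topology Metric Function MeasureTheory
open scoped Manifold ContDiff

noncomputable section

namespace Pool.Agent.U211.BLV

open Pool.Agent.Y522 Pool.Agent.U211.BL

variable {n d : ℕ} {X Y : Type} [TopologicalSpace X] [ChartedSpace (E n) X] [T2Space X]
  [TopologicalSpace Y] [ChartedSpace (E n) Y] [IsManifold (𝓡 n) ∞ Y] [CompactSpace Y]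
  {e : Y → E d} {π : E d → Y}

/-- the retraction is Lipschitz near the manifold -/
theorem PP_close (hT : Tub n e π) {ξ τ CQ : ℝ}
    (hτ : ∀ y : Y, ∀ p : E d, ‖p - e y‖ ≤ τ →
      ContMDiffAt (𝓡 d) (𝓡 n) ∞ π p ∧ ‖fderiv ℝ (PP e π) p - fderiv ℝ (PP e π) (e y)‖ ≤ ξ)
    (hCQ : ∀ y : Y, ‖fderiv ℝ (PP e π) (e y) - ContinuousLinearMap.id ℝ (E d)‖ ≤ CQ) {y : Y}
    {p : E d} (hp : ‖p - e y‖ ≤ τ) : ‖e (π p) - e y‖ ≤ (1 + CQ + ξ) * ‖p - e y‖ := by
  have h1 : ∀ z ∈ closedBall (e y) τ, HasFDerivWithinAt (PP e π) (fderiv ℝ (PP e π) z)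
      (closedBall (e y) τ) z := fun z hz => by
    rw [mem_closedBall, dist_eq_norm] at hz
    exact ((PP_smooth hT (hτ _ z hz).1).differentiableAt (by simp)).hasFDerivAt.hasFDerivWithinAt
  have h2 : ∀ z ∈ closedBall (e y) τ, ‖fderiv ℝ (PP e π) z‖ ≤ 1 + CQ + ξ := fun z hz => by
    rw [mem_closedBall, dist_eq_norm] at hz
    have h3 : fderiv ℝ (PP e π) z = ContinuousLinearMap.id ℝ (E d) +
        (fderiv ℝ (PP e π) (e y) - ContinuousLinearMap.id ℝ (E d)) +
        (fderiv ℝ (PP e π) z - fderiv ℝ (PP e π) (e y)) := by abel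
    rw [h3]
    refine (norm_add_le _ _).trans (add_le_add ((norm_add_le _ _).trans
      (add_le_add ContinuousLinearMap.norm_id_le (hCQ y))) (hτ _ z hz).2)
  have h3 := Convex.norm_image_sub_le_of_norm_hasFDerivWithin_le (𝕜 := ℝ) h1 h2
    (convex_closedBall _ _) (x := e y) (y := p)
    (mem_closedBall_self ((norm_nonneg _).trans hp)) (by rwa [mem_closedBall, dist_eq_norm])
  rw [PP_fix hT] at h3
  exact h3

/-- **Smoothing.** -/
theorem smoothing (hT : Tub n e π) (g : X → Y) (hg : Continuous g) {ρ₁ : ℝ} (h1 : 1 ≤ ρ₁)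
    (h2 : ρ₁ < 2) (h3 : (ρ₁ ^ 2 - 1) * Real.sqrt n < 2 * ρ₁) {N : ℕ} (B : Fin N → E n → X)
    (a : Fin N → ℝ) (hB : ∀ i, Box (B i)) (hA : ∀ i, BLip (fun x => e (g x)) ρ₁ (B i) (a i))
    (hK : ∀ x, ¬ LD n g x → ∃ i, x ∈ B i '' ball 0 (1 / 2)) {ε₀ : ℝ} (hε₀ : 0 < ε₀) :
    ∃ g' : X → Y, (∀ x, (∀ i, x ∉ B i '' closedBall 0 1) → g' x = g x) ∧
      (∀ x, LD n g' x) ∧ ∀ x, ‖e (g' x) - e (g x)‖ ≤ ε₀ := by
  have hF : Continuous fun x => e (g x) := hT.smooth.continuous.comp hg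
  obtain ⟨CQ, hCQ0, hCQ⟩ := PP_bound hT
  obtain ⟨r₀, ρ, η, κ, hη, hr1, hN⟩ := exists_num h1 h2 h3
  obtain ⟨K⟩ := exists_ker n hN.r0 hr1
  have hρ00 : 0 < ρ := by linarith [hN.ηρ]
  have hκ00 := hN.κ0
  obtain ⟨ξ, hξd⟩ : ∃ ξ, ξ = κ / (64 * ρ₁ ^ 2 * ρ ^ 2) := ⟨_, rfl⟩
  have hξ : 0 < ξ := by
    rw [hξd]
    positivity
  obtain ⟨τ, hτ0, hτ⟩ := PP_unif hT hξ
  have hρ0 : 0 < ρ := by linarith [hN.ηρ]
  have hκ0 := hN.κ0
  obtain ⟨m, hm0, hm⟩ := exists_lower' a fun i => (hA i).pos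
  obtain ⟨Mx, hMx0, hMx⟩ := exists_upper' a fun i => (hA i).pos.le
  obtain ⟨ε, e1, hε0⟩ := ((small Mx (D := η * m) (by positivity)).and self_mem_nhdsWithin).exists
  have hε0' : 0 < ε := hε0
  have hε : ∀ i j, ε * a i ≤ η * a j := by
    intro i j
    calc ε * a i ≤ ε * Mx := mul_le_mul_of_nonneg_left (hMx i) hε0'.le
      _ ≤ η * m := e1.le
      _ ≤ η * a j := mul_le_mul_of_nonneg_left (hm j) hη.le
  have htr := fun p : Fin N × Fin N => trans_unif (hB p.2) (hB p.1) hε0'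
  choose δt hδt htr using htr
  obtain ⟨δ₀, hδ₀, hδ₀le⟩ := exists_lower' δt hδt
  have hlip := fun i => rr_lip (ps_smooth B hB) (hB i)
  choose Λi hΛi0 hΛi using hlip
  obtain ⟨Λ, hΛ0, hΛ⟩ := exists_upper' Λi hΛi0
  have hCb : ∀ p : Fin N × Fin N, ∃ C : ℝ, 0 ≤ C ∧ ∀ y : E n, ‖y‖ ≤ 1 →
      ‖fderiv ℝ (fun y => wt B p.1 (B p.2 y)) y‖ ≤ C := by
    intro p
    have hcont : ContinuousOn (fderiv ℝ (fun y => wt B p.1 (B p.2 y))) (closedBall (0 : E n) 1) := by
      intro y hy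
      rw [mem_closedBall_zero_iff] at hy
      have h4 := smooth_in_box (hB p.2) (by linarith : ‖y‖ ≤ 2) (wt_smooth B hB p.1 _)
      exact (h4.fderiv_right (m := 0) (by simp)).continuousAt.continuousWithinAt
    obtain ⟨C, hC⟩ := (isCompact_closedBall (0 : E n) 1).exists_bound_of_continuousOn hcont
    exact ⟨|C|, abs_nonneg _, fun y hy => (hC y (by simpa using hy)).trans (le_abs_self _)⟩
  choose Cp hCp0 hCp using hCb
  obtain ⟨Cχ, hCχ0, hCχ⟩ := exists_upper' Cp hCp0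
  -- the scale
  obtain ⟨δ, ⟨d1, d2, d3, d4, d5, d6, d7⟩, hδ⟩ := (((small (N : ℝ) (D := m / 4) (by positivity)).and
    ((small (N / m) hδ₀).and ((small (8 * ρ ^ 2 * Λ / m) hκ0).and
    ((small (N * (2 * ρ₁ ^ 2 * N * Cχ * (1 + CQ + ξ))) (D := m * κ / (8 * ρ)) (by positivity)).and
      ((small ((1 + CQ + ξ) * (ρ₁ * N)) hε₀).and ((small (4 * ρ₁ * N) hτ0).and
        (small (Λ / m) (D := 1) one_pos))))))).and self_mem_nhdsWithin).exists
  have hδ0 : 0 < δ := hδ
  obtain ⟨c, hc⟩ : ∃ c : Fin N → E n → ℝ, c = fun i z => δ * rr (ps B) (B i) z / a i := ⟨_, rfl⟩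
  have hcd : ∀ i z, c i z = δ * rr (ps B) (B i) z / a i := fun i z => by rw [hc]
  have hrr0 : ∀ i z, 0 ≤ rr (ps B) (B i) z := fun i z => rr_nonneg (ps_nonneg B) (B i) z
  have hrr1 : ∀ i z, rr (ps B) (B i) z ≤ N := fun i z => rr_le (ps_nonneg B) (ps_le B) (B i) z
  have hRad : ∀ i, Rad (c i) := by
    intro i
    have hai := (hA i).pos
    refine ⟨?_, ?_, ?_, ?_⟩
    · have h4 : c i = fun z => δ * rr (ps B) (B i) z / a i := by rw [hc]
      rw [h4]
      exact (contDiff_const.mul (rr_smooth (ps_smooth B hB) (hB i))).div_const _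
    · intro z
      rw [hcd]
      exact div_nonneg (mul_nonneg hδ0.le (hrr0 i z)) hai.le
    · intro z
      rw [hcd, div_le_iff₀ hai]
      calc δ * rr (ps B) (B i) z ≤ δ * N := mul_le_mul_of_nonneg_left (hrr1 i z) hδ0.le
        _ ≤ 1 / 4 * m := by linarith
        _ ≤ 1 / 4 * a i := mul_le_mul_of_nonneg_left (hm i) (by norm_num)
    · intro z hz
      rw [hcd, rr_zero _ _ hz, mul_zero, zero_div]
  have hac : ∀ i z, a i * c i z ≤ δ * N := by
    intro i z
    rw [hcd, mul_div_cancel₀ _ (hA i).pos.ne']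
    exact mul_le_mul_of_nonneg_left (hrr1 i z) hδ0.le
  have hcl : ∀ x, ‖Fs K B (fun x => e (g x)) c x - e (g x)‖ ≤ ρ₁ * (δ * N) := fun x =>
    Fs_close K hB hF hRad (fun i => (hA i).pos) h1 (fun i => (hA i).up) hac (by positivity) x
  have hN0 : (0 : ℝ) ≤ N := Nat.cast_nonneg N
  have hclτ : ρ₁ * (δ * N) < τ := by
    have h4 : ρ₁ * (δ * N) ≤ δ * (4 * ρ₁ * N) := by
      nlinarith [mul_nonneg (mul_nonneg hδ0.le hN0) (by linarith : (0 : ℝ) ≤ ρ₁)]
    exact h4.trans_lt d6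
  refine ⟨fun x => π (Fs K B (fun x => e (g x)) c x), fun x hx => ?_, ?_, ?_⟩
  · show π (Fs K B (fun x => e (g x)) c x) = g x
    rw [Fs_off K B (fun x => e (g x)) c hx, hT.retr]
  · intro x
    rcases (ps_nonneg B x).lt_or_eq with hx | hx
    · have hxN := ps_le B x
      refine proj_LD_pos K (β := δ * Λ / m) (Cχ := Cχ) (ε := ε) (δ := δ) hT hN hB hg hRad hA hx
        hδ0 hcd ?_ hε ?_ ?_ ?_ (by positivity) ?_ hξ.le hτ hCQ ((hcl x).trans_lt hclτ) ?_ ?_
      · intro i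
        constructor
        · have : 8 * ρ ^ 2 * (δ * Λ / m) = δ * (8 * ρ ^ 2 * Λ / m) := by ring
          rw [this]
          exact d3.le
        · intro y z
          rw [hcd, hcd, ← sub_div, ← mul_sub, abs_div, abs_mul, abs_of_pos hδ0,
            abs_of_pos (hA i).pos, div_le_iff₀ (hA i).pos]
          have h4 := hΛi i y z
          have h5 : Λi i * ‖y - z‖ ≤ Λ * ‖y - z‖ :=
            mul_le_mul_of_nonneg_right (hΛ i) (norm_nonneg _)
          calc δ * |rr (ps B) (B i) y - rr (ps B) (B i) z| ≤ δ * (Λ * ‖y - z‖) :=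
                mul_le_mul_of_nonneg_left (h4.trans h5) hδ0.le
            _ = δ * Λ / m * ‖y - z‖ * m := by field_simp
            _ ≤ δ * Λ / m * ‖y - z‖ * a i := by
                apply mul_le_mul_of_nonneg_left (hm i)
                positivity
      · intro j
        rw [div_le_iff₀ (hA j).pos]
        calc δ * ps B x ≤ δ * N := mul_le_mul_of_nonneg_left hxN hδ0.le
          _ ≤ 1 / 4 * m := by linarith
          _ ≤ 1 / 4 * a j := mul_le_mul_of_nonneg_left (hm j) (by norm_num)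
      · intro i j y z hy hz hyz v hv
        refine htr (i, j) y z hy hz hyz v (hv.trans ?_)
        refine le_trans ?_ (hδ₀le (i, j))
        refine le_trans ?_ d2.le
        rw [← mul_div_assoc]
        apply div_le_div₀ (by positivity) (mul_le_mul_of_nonneg_left hxN hδ0.le) hm0 (hm j)
      · intro i j y hy
        exact (hCp (i, j) y hy).trans (hCχ (i, j))
      · rw [mul_div_assoc]
        exact d7.le
      · calc 4 * ρ₁ * (δ * ps B x) ≤ 4 * ρ₁ * (δ * N) := by gcongr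
          _ = δ * (4 * ρ₁ * N) := by ring
          _ ≤ τ := d6.le
      · intro j
        have e1 : (δ * ps B x) * (2 * ρ₁ ^ 2 * N * Cχ * (1 + CQ + ξ)) ≤
            (δ * N) * (2 * ρ₁ ^ 2 * N * Cχ * (1 + CQ + ξ)) := by gcongr
        have e2 : (δ * N) * (2 * ρ₁ ^ 2 * N * Cχ * (1 + CQ + ξ)) < a j * κ / (8 * ρ) := by
          calc (δ * N) * (2 * ρ₁ ^ 2 * N * Cχ * (1 + CQ + ξ)) =
                δ * (N * (2 * ρ₁ ^ 2 * N * Cχ * (1 + CQ + ξ))) := by ring
            _ < m * κ / (8 * ρ) := d4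
            _ ≤ a j * κ / (8 * ρ) := by
                gcongr
                exact hm j
        have e3 : ξ * (8 * ρ₁ ^ 2 * ρ * a j) = a j * κ / (8 * ρ) := by
          rw [hξd]
          field_simp
          norm_num
        have e4 : a j * κ / (4 * ρ) = a j * κ / (8 * ρ) + a j * κ / (8 * ρ) := by
          field_simp
          ring
        rw [e3, e4]
        linarith
    · have hLD : LD n g x := by
        by_contra hcon
        obtain ⟨i, hi⟩ := hK x hcon
        have := ps_pos B hB hi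
        rw [← hx] at this
        exact lt_irrefl _ this
      have hc0 : ∀ i z, B i z = x → c i z = 0 := by
        intro i z hz
        rw [hcd]
        unfold rr
        rw [hz, ← hx, zero_mul, mul_zero, zero_div]
      apply proj_LD_null K hT hB hg hRad hLD hc0
      unfold Fs
      rw [Finset.sum_eq_zero, add_zero]
      intro i _
      have hval : Mi K (B i) (fun x => e (g x)) (c i) x = e (g x) := by
        by_cases hm : x ∈ B i '' closedBall 0 1
        · obtain ⟨z, hz, hzy⟩ := hm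
          rw [mem_closedBall_zero_iff] at hz
          rw [← hzy, Mi_of K (hB i) (hRad i).zero (by linarith), moll_const K (hc0 i z hzy)]
        · rw [Mi_off K hm]
      rw [hval, sub_self, smul_zero]
  · intro x
    refine (PP_close hT hτ hCQ ((hcl x).trans hclτ.le)).trans ?_
    calc (1 + CQ + ξ) * ‖Fs K B (fun x => e (g x)) c x - e (g x)‖
        ≤ (1 + CQ + ξ) * (ρ₁ * (δ * N)) := mul_le_mul_of_nonneg_left (hcl x) (by positivity)
      _ = δ * ((1 + CQ + ξ) * (ρ₁ * N)) := by ring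
      _ ≤ ε₀ := d5.le

end Pool.Agent.U211.BLV
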