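import Pool.Agent.U211.BLV.Tub

/-!
# The projected smoothed map is a local diffeomorphism
-/

set_option autoImplicit false
set_option linter.unusedSectionVars false

open Set Filter Topology Metric Function MeasureTheory
open scoped Manifold ContDiff

noncomputable section

namespace Pool.Agent.U211.BLV

open Pool.Agent.Y522 Pool.Agent.U211.BL

variable {n d : ℕ} {X Y : Type} [TopologicalSpace X] [ChartedSpace (E n) X] [T2Space X]
  [TopologicalSpace Y] [ChartedSpace (E n) Y] [IsManifold (𝓡 n) ∞ Y]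

variable {r₀ : ℝ} (K : Ker n r₀) {N : ℕ} {B : Fin N → E n → X} {e : Y → E d} {π : E d → Y}
  {g : X → Y} {c : Fin N → E n → ℝ} {a : Fin N → ℝ} {ρ₁ ρ η κ ε β C Cχ : ℝ}

/-- composition with the derivative of the smoothed map in a box -/
theorem comp_box (hT : Tub n e π) {G : E n → E d} {V : E n →L[ℝ] E d} {y : E n}
    (hG : ∀ᶠ w in 𝓝 y, ContDiffAt ℝ ∞ G w) (hV : HasFDerivAt G V y)
    (hπ : ∀ᶠ p in 𝓝 (G y), ContMDiffAt (𝓡 d) (𝓡 n) ∞ π p)
    (h : ∀ u : E n, ‖u‖ = 1 → fderiv ℝ (PP e π) (G y) (V u) ≠ 0) :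
    LD n (fun w => π (G w)) y := by
  have hGc : ContinuousAt G y := hG.self_of_nhds.continuousAt
  have h1 : ∀ᶠ w in 𝓝 y, ContMDiffAt (𝓡 n) (𝓡 n) ∞ (fun w => π (G w)) w := by
    filter_upwards [hG, hGc.eventually hπ] with w hw1 hw2
    exact ContMDiffAt.comp (I' := 𝓡 d) (g := π) (f := G) w hw2 (contMDiffAt_iff_contDiffAt.2 hw1)
  have h2 : HasFDerivAt (PP e π) (fderiv ℝ (PP e π) (G y)) (G y) :=
    ((PP_smooth hT hπ.self_of_nhds).differentiableAt (by simp)).hasFDerivAt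
  have h3 : HasFDerivAt (fun w => e (π (G w))) ((fderiv ℝ (PP e π) (G y)).comp V) y :=
    h2.comp y hV
  exact LD_of_imm hT.smooth h1 h3 h

/-- from a box to the manifold, general target -/
theorem LD_of_box' {A : E n → X} (hA : Box A) {f : X → Y} {y : E n} (hy : ‖y‖ < 2)
    (h : LD n (fun y => f (A y)) y) : LD n f (A y) := by
  have h1 : LD n (fun x => f (A (iv A x))) (A y) := by
    refine LD.comp_fun (g := fun y => f (A y)) (f := iv A) ?_ (iv_ld hA hy)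
    rw [iv_of hA hy.le]
    exact h
  refine h1.congr ?_
  filter_upwards [(box_isOpen hA isOpen_ball ball_subset_closedBall).mem_nhds
    ⟨y, by simpa using hy, rfl⟩] with z hz
  obtain ⟨w, hw, rfl⟩ := hz
  rw [mem_ball_zero_iff] at hw
  rw [iv_of hA hw.le]

theorem LS_of_LD {e : Y → E d} (he : ContMDiff (𝓡 n) (𝓡 d) ∞ e) {x : X} (hx : LD n g x) :
    LS n d (fun x => e (g x)) x := by
  filter_upwards [hx.eventually] with y hy
  exact (he (g y)).comp y hy.contMDiffAt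

/-- points where the radius vanishes -/
theorem proj_LD_null (hT : Tub n e π) (hB : ∀ i, Box (B i)) (hg : Continuous g)
    (hc : ∀ i, Rad (c i)) {x : X} (hx : LD n g x) (h0 : ∀ i z, B i z = x → c i z = 0)
    (hFx : Fs K B (fun x => e (g x)) c x = e (g x)) :
    LD n (fun x => π (Fs K B (fun x => e (g x)) c x)) x := by
  have hF : Continuous fun x => e (g x) := hT.smooth.continuous.comp hg
  have hLS := LS_of_LD (d := d) hT.smooth hx
  by_cases hj : ∃ j, x ∈ B j '' closedBall 0 (3 / 4)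
  · obtain ⟨j, y, hy, rfl⟩ := hj
    rw [mem_closedBall_zero_iff] at hy
    apply LD_of_box' (hB j) (by linarith)
    have hjy := (hB j).ld y (by rw [mem_closedBall_zero_iff]; linarith)
    have hgA : LD n (fun y => g (B j y)) y := LD.comp_fun hx hjy
    have hFA : HasFDerivAt (fun y => e (g (B j y))) (fderiv ℝ (fun y => e (g (B j y))) y) y :=
      ((ev_smooth (F := fun x => e (g x)) (hB j) (by linarith) hLS).self_of_nhds.differentiableAt
        (by simp)).hasFDerivAt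
    have hD := Fs_null_box K (F := fun x => e (g x)) hB hF hc (j := j) (y := y) (by linarith) hLS h0
    apply comp_box hT (V := fderiv ℝ (fun y => e (g (B j y))) y) _ hD
    · rw [hFx]
      exact hT.near _
    · intro u hu
      rw [hFx]
      have h1 : HasFDerivAt (PP e π) (fderiv ℝ (PP e π) (e (g (B j y)))) (e (g (B j y))) :=
        ((PP_smooth hT (hT.near _).self_of_nhds).differentiableAt (by simp)).hasFDerivAt
      have h2 := h1.comp y hFA
      have h3 : (PP e π) ∘ (fun y => e (g (B j y))) = fun y => e (g (B j y)) := by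
        funext w
        exact PP_fix hT _
      rw [h3] at h2
      have h4 : fderiv ℝ (PP e π) (e (g (B j y))) (fderiv ℝ (fun y => e (g (B j y))) y u) =
          fderiv ℝ (fun y => e (g (B j y))) y u := by
        have h5 := h2.unique hFA
        have h6 := congrArg (fun T : E n →L[ℝ] E d => T u) h5
        exact h6
      rw [h4]
      refine imm_of_LD hT hgA hFA ?_
      intro h5
      rw [h5, norm_zero] at hu
      exact zero_ne_one hu
    · have h1 : ∀ᶠ w in 𝓝 y, ‖w‖ < 2 := continuous_norm.continuousAt.eventually_lt_const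
        (by linarith)
      have h2 : ∀ᶠ w in 𝓝 y, LS n d (fun x => e (g x)) (B j w) :=
        hjy.continuousAt.eventually hLS.eventually_nhds
      filter_upwards [h1, h2] with w hw1 hw2
      exact contMDiffAt_iff_contDiffAt.1 ((Fs_smooth_LS K hB hF hc hw2).comp w
        ((hB j).ld w (by rw [mem_closedBall_zero_iff]; linarith)).contMDiffAt)
  · push Not at hj
    refine hx.congr ?_
    filter_upwards [Fs_null_off K (F := fun x => e (g x)) (c := c) hB hj] with y hy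
    rw [hy, hT.retr]

/-- points where the radius is positive -/
theorem proj_LD_pos (hT : Tub n e π) (hN : Num n r₀ ρ₁ ρ η κ) (hB : ∀ i, Box (B i))
    (hg : Continuous g) (hc : ∀ i, Rad (c i)) (hA : ∀ i, BLip (fun x => e (g x)) ρ₁ (B i) (a i))
    {x : X} (hx : 0 < ps B x)
    {δ : ℝ} (hδ : 0 < δ) (hcd : ∀ i z, c i z = δ * rr (ps B) (B i) z / a i)
    (hβ : ∀ i, 8 * ρ ^ 2 * β ≤ κ ∧ ∀ y z, |c i y - c i z| ≤ β * ‖y - z‖)
    (hε : ∀ i j, ε * a i ≤ η * a j) (hCα : ∀ j, δ * ps B x / a j ≤ 1 / 4)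
    (htr : ∀ i j, ∀ y z : E n, ‖y‖ ≤ 1 → ‖z‖ ≤ 1 → B j y = B i z → ∀ v : E n,
      ‖v‖ ≤ δ * ps B x / a j →
      ‖tr (B j) (B i) (y + v)‖ ≤ 2 ∧ B i (tr (B j) (B i) (y + v)) = B j (y + v) ∧
      ‖tr (B j) (B i) (y + v) - z - fderiv ℝ (tr (B j) (B i)) y v‖ ≤ ε * ‖v‖)
    (hCχ : ∀ i j, ∀ y, ‖y‖ ≤ 1 → ‖fderiv ℝ (fun y => wt B i (B j y)) y‖ ≤ Cχ)
    (hβ0 : 0 ≤ β) (hβ1 : β ≤ 1) {ξ τ CQ : ℝ} (hξ : 0 ≤ ξ)
    (hτ : ∀ y : Y, ∀ p : E d, ‖p - e y‖ ≤ τ →
      ContMDiffAt (𝓡 d) (𝓡 n) ∞ π p ∧ ‖fderiv ℝ (PP e π) p - fderiv ℝ (PP e π) (e y)‖ ≤ ξ)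
    (hCQ : ∀ y : Y, ‖fderiv ℝ (PP e π) (e y) - ContinuousLinearMap.id ℝ (E d)‖ ≤ CQ)
    (hclose : ‖Fs K B (fun x => e (g x)) c x - e (g x)‖ < τ) (hCτ : 4 * ρ₁ * (δ * ps B x) ≤ τ)
    (hfin : ∀ j, (δ * ps B x) * (2 * ρ₁ ^ 2 * N * Cχ * (1 + CQ + ξ)) +
      ξ * (8 * ρ₁ ^ 2 * ρ * a j) < a j * κ / (4 * ρ)) :
    LD n (fun x => π (Fs K B (fun x => e (g x)) c x)) x := by
  have hF : Continuous fun x => e (g x) := hT.smooth.continuous.comp hg
  obtain ⟨C, hC⟩ : ∃ C, C = δ * ps B x := ⟨_, rfl⟩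
  have hC0 : 0 < C := by rw [hC]; exact mul_pos hδ hx
  obtain ⟨j, y, hy, hyx, hsm, V, hV, hlow, hup⟩ := Fs_deriv_pos K hN hB hF hc hA hx hδ hcd hβ hε
    hCα htr hCχ hβ0 hβ1 hC
  rw [← hC] at hCτ hfin
  have hρ1 := hN.one
  have hρ0 : 0 < ρ := by linarith [hN.ηρ, hN.η0]
  have haj := (hA j).pos
  rw [← hyx]
  apply LD_of_box' (hB j) (by linarith)
  apply comp_box hT hsm hV
  · rw [hyx]
    have h1 : ∀ᶠ p in 𝓝 (Fs K B (fun x => e (g x)) c x), ‖p - e (g x)‖ < τ := by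
      have h2 : Continuous fun p : E d => ‖p - e (g x)‖ := by fun_prop
      exact h2.continuousAt.eventually_lt_const hclose
    filter_upwards [h1] with p hp
    exact (hτ _ p hp.le).1
  · intro u hu h0
    rw [hyx] at h0
    obtain ⟨b, hb, hlow⟩ := hlow u hu
    obtain ⟨D, hD⟩ : ∃ D, D = fderiv ℝ (PP e π) (e (g x)) := ⟨_, rfl⟩
    obtain ⟨D', hD'⟩ : ∃ D', D' = fderiv ℝ (PP e π) (Fs K B (fun x => e (g x)) c x) := ⟨_, rfl⟩
    rw [← hD'] at h0
    have hq := QC_of hT hξ hτ hCQ hCτ g x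
    have u1 := hup _ _ _ hq u hu
    have u2 := hup _ _ _ (QC_id (fun x => e (g x)) x _) u hu
    rw [← hD] at u1
    rw [ContinuousLinearMap.id_apply] at u2
    have hDD : ‖D' - D‖ ≤ ξ := by
      rw [hD', hD]
      exact (hτ (g x) _ hclose.le).2
    have h1 : V u = -((D - ContinuousLinearMap.id ℝ (E d)) (V u)) - (D' - D) (V u) := by
      simp [h0]
    have h2 : ‖V u‖ ≤ 2 * ξ * ρ₁ * ρ * a j + N * (CQ * (Cχ * (ρ₁ * C))) +
        ξ * (2 * 1 * ρ₁ * ρ * a j + N * (1 * (Cχ * (ρ₁ * C)))) := by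
      calc ‖V u‖ = ‖-((D - ContinuousLinearMap.id ℝ (E d)) (V u)) - (D' - D) (V u)‖ := by
            rw [← h1]
        _ ≤ ‖-((D - ContinuousLinearMap.id ℝ (E d)) (V u))‖ + ‖(D' - D) (V u)‖ := norm_sub_le _ _
        _ ≤ _ := by
            rw [norm_neg]
            apply add_le_add u1
            calc ‖(D' - D) (V u)‖ ≤ ξ * ‖V u‖ := (D' - D).le_of_opNorm_le hDD _
              _ ≤ _ := mul_le_mul_of_nonneg_left u2 hξ
    have h3 : inner ℝ (V u) b ≤ ‖V u‖ * (2 * ρ₁ * C) :=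
      (real_inner_le_norm _ _).trans (mul_le_mul_of_nonneg_left hb (norm_nonneg _))
    have h4 : ‖V u‖ * (2 * ρ₁ * C) ≤ (2 * ξ * ρ₁ * ρ * a j + N * (CQ * (Cχ * (ρ₁ * C))) +
        ξ * (2 * 1 * ρ₁ * ρ * a j + N * (1 * (Cχ * (ρ₁ * C))))) * (2 * ρ₁ * C) :=
      mul_le_mul_of_nonneg_right h2 (by positivity)
    have h5 := mul_lt_mul_of_pos_left (hfin j) hC0
    have h6 : C * (C * (2 * ρ₁ ^ 2 * N * Cχ * (1 + CQ + ξ)) + ξ * (8 * ρ₁ ^ 2 * ρ * a j)) =
        N * (Cχ * (ρ₁ * C) * (2 * ρ₁ * C)) + (2 * ξ * ρ₁ * ρ * a j + N * (CQ * (Cχ * (ρ₁ * C))) +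
        ξ * (2 * 1 * ρ₁ * ρ * a j + N * (1 * (Cχ * (ρ₁ * C))))) * (2 * ρ₁ * C) := by ring
    have h7 : C * (a j * κ / (4 * ρ)) = a j * C * κ / (4 * ρ) := by ring
    rw [h6, h7] at h5
    linarith

end Pool.Agent.U211.BLV
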