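import Pool.Agent.U211.BLV.Der2
import Pool.Agent.U211.BL.AsmB

/-!
# The mollified maps on the manifold, values in a Euclidean space
-/

set_option autoImplicit false

open Set Filter Topology Metric Function MeasureTheory
open scoped Manifold ContDiff

noncomputable section

namespace Pool.Agent.U211.BLV

open Pool.Agent.Y522 Pool.Agent.U211.BL

variable {n d : ℕ} {X : Type} [TopologicalSpace X] [ChartedSpace (E n) X]

variable {r₀ : ℝ} (K : Ker n r₀)

/-- the mollified map -/
def Mi (B : E n → X) (F : X → E d) (c : E n → ℝ) (x : X) : E d :=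
  open Classical in if x ∈ B '' closedBall 0 1 then Mol K (fun z => F (B z)) c (iv B x) else F x

omit [TopologicalSpace X] [ChartedSpace (E n) X] in
theorem Mi_off {B : E n → X} {F : X → E d} {c : E n → ℝ} {x : X} (hx : x ∉ B '' closedBall 0 1) :
    Mi K B F c x = F x := by
  unfold Mi
  rw [if_neg hx]

theorem Mi_of {B : E n → X} (hB : Box B) {F : X → E d} {c : E n → ℝ}
    (hc : ∀ z, 1 ≤ ‖z‖ → c z = 0) {z : E n} (hz : ‖z‖ ≤ 2) :
    Mi K B F c (B z) = Mol K (fun z => F (B z)) c z := by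
  unfold Mi
  rcases le_or_gt ‖z‖ 1 with h | h
  · rw [if_pos ⟨z, by simpa using h, rfl⟩, iv_of hB hz]
  · rw [if_neg (not_mem_of hB (by norm_num) hz h), moll_const K (hc z h.le)]

/-- near a point of the box -/
theorem Mi_near {B : E n → X} (hB : Box B) {F : X → E d} {c : E n → ℝ}
    (hc : ∀ z, 1 ≤ ‖z‖ → c z = 0) {z : E n} (hz : ‖z‖ < 2) :
    Mi K B F c =ᶠ[𝓝 (B z)] fun y => Mol K (fun z => F (B z)) c (iv B y) := by
  filter_upwards [(box_isOpen hB isOpen_ball ball_subset_closedBall).mem_nhds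
    ⟨z, by simpa using hz, rfl⟩] with y hy
  obtain ⟨w, hw, rfl⟩ := hy
  rw [mem_ball_zero_iff] at hw
  rw [Mi_of K hB hc hw.le, iv_of hB hw.le]

theorem F_near {B : E n → X} (hB : Box B) {F : X → E d} {z : E n} (hz : ‖z‖ < 2) :
    F =ᶠ[𝓝 (B z)] fun y => F (B (iv B y)) := by
  filter_upwards [(box_isOpen hB isOpen_ball ball_subset_closedBall).mem_nhds
    ⟨z, by simpa using hz, rfl⟩] with y hy
  obtain ⟨w, hw, rfl⟩ := hy
  rw [mem_ball_zero_iff] at hw
  rw [iv_of hB hw.le]

/-- smoothness of a map to `E d` -/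
abbrev Sm (n d : ℕ) {X : Type} [TopologicalSpace X] [ChartedSpace (E n) X] (f : X → E d) (x : X) :
    Prop := ContMDiffAt (𝓡 n) (𝓡 d) ∞ f x

/-- smoothness near a point -/
abbrev LS (n d : ℕ) {X : Type} [TopologicalSpace X] [ChartedSpace (E n) X] (f : X → E d) (x : X) :
    Prop := ∀ᶠ y in 𝓝 x, Sm n d f y

theorem contOn {B : E n → X} (hB : Box B) {F : X → E d} (hF : Continuous F) :
    ContinuousOn (fun z => F (B z)) (closedBall 0 2) :=
  hF.comp_continuousOn (box_contOn hB)

theorem Mi_smooth_pos {B : E n → X} (hB : Box B) {F : X → E d} (hF : Continuous F) {c : E n → ℝ}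
    (hc : Rad c) {z : E n} (hz : 0 < c z) : Sm n d (Mi K B F c) (B z) := by
  have hz1 : ‖z‖ < 1 := by
    by_contra h
    rw [hc.zero z (not_lt.1 h)] at hz
    exact lt_irrefl _ hz
  have h1 : ContDiffAt ℝ ∞ (Mol K (fun z => F (B z)) c) z :=
    moll_pos K (contOn hB hF) hc.smooth hc.le (fun z hz => hc.zero z hz.le) hz
  have h2 : ContMDiffAt (𝓡 n) (𝓡 d) ∞ (Mol K (fun z => F (B z)) c) (iv B (B z)) := by
    rw [iv_of hB (by linarith)]
    exact contMDiffAt_iff_contDiffAt.2 h1
  have h3 : ContMDiffAt (𝓡 n) (𝓡 d) ∞ (fun y => Mol K (fun z => F (B z)) c (iv B y)) (B z) :=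
    h2.comp (B z) (iv_ld hB (by linarith)).contMDiffAt
  exact h3.congr_of_eventuallyEq (Mi_near K hB hc.zero (by linarith))

theorem ev_smooth {B : E n → X} (hB : Box B) {F : X → E d} {z : E n} (hz : ‖z‖ < 2)
    (h : LS n d F (B z)) : ∀ᶠ y in 𝓝 z, ContDiffAt ℝ ∞ (fun z => F (B z)) y := by
  have h1 : ∀ᶠ y in 𝓝 z, Sm n d F (B y) :=
    (hB.ld z (by simpa using hz.le)).continuousAt.eventually h
  have h2 : ∀ᶠ y in 𝓝 z, ‖y‖ < 2 := continuous_norm.continuousAt.eventually_lt_const hz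
  filter_upwards [h1, h2] with y hy hy2
  exact contMDiffAt_iff_contDiffAt.1 (hy.comp y (hB.ld y (by simpa using hy2.le)).contMDiffAt)

theorem Mi_smooth_LS [T2Space X] {B : E n → X} (hB : Box B) {F : X → E d} (hF : Continuous F)
    {c : E n → ℝ} (hc : Rad c) {x : X} (hx : LS n d F x) : Sm n d (Mi K B F c) x := by
  by_cases hxB : x ∈ B '' ball 0 2
  · obtain ⟨z, hz, rfl⟩ := hxB
    rw [mem_ball_zero_iff] at hz
    rcases (hc.nonneg z).lt_or_eq with h | h
    · exact Mi_smooth_pos K hB hF hc h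
    · have h1 : ContDiffAt ℝ ∞ (Mol K (fun z => F (B z)) c) z :=
        (moll_null K hc.smooth hc.nonneg h.symm (ev_smooth hB hz hx)).1
      have h2 : ContMDiffAt (𝓡 n) (𝓡 d) ∞ (Mol K (fun z => F (B z)) c) (iv B (B z)) := by
        rw [iv_of hB hz.le]
        exact contMDiffAt_iff_contDiffAt.2 h1
      have h3 : ContMDiffAt (𝓡 n) (𝓡 d) ∞ (fun y => Mol K (fun z => F (B z)) c (iv B y)) (B z) :=
        h2.comp (B z) (iv_ld hB hz).contMDiffAt
      exact h3.congr_of_eventuallyEq (Mi_near K hB hc.zero hz)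
  · have hx1 : x ∉ B '' closedBall 0 1 := fun h => hxB
      (image_mono (closedBall_subset_ball (by norm_num)) h)
    have hev : Mi K B F c =ᶠ[𝓝 x] F := by
      filter_upwards [(box_isCompact hB (by norm_num)).isClosed.isOpen_compl.mem_nhds hx1] with y hy
      exact Mi_off K hy
    exact hx.self_of_nhds.congr_of_eventuallyEq hev

/-- the mollified map in another box -/
theorem Mi_tr {A B : E n → X} (hA : Box A) (hB : Box B) {F : X → E d} {c : E n → ℝ}
    (hc : ∀ z, 1 ≤ ‖z‖ → c z = 0) {y z : E n} (hy : ‖y‖ < 2) (hz : ‖z‖ < 2) (h : A y = B z) :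
    (fun y => Mi K B F c (A y)) =ᶠ[𝓝 y] fun y => Mol K (fun z => F (B z)) c (tr A B y) := by
  have h1 := (hA.ld y (by simpa using hy.le)).continuousAt
  have h2 : Mi K B F c =ᶠ[𝓝 (A y)] fun y => Mol K (fun z => F (B z)) c (iv B y) := by
    rw [h]
    exact Mi_near K hB hc hz
  exact h1.eventually h2

theorem F_tr {A B : E n → X} (hA : Box A) (hB : Box B) {F : X → E d} {y z : E n} (hy : ‖y‖ < 2)
    (hz : ‖z‖ < 2) (h : A y = B z) : (fun y => F (A y)) =ᶠ[𝓝 y] fun y => F (B (tr A B y)) := by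
  have h1 := (hA.ld y (by simpa using hy.le)).continuousAt
  have h2 : F =ᶠ[𝓝 (A y)] fun y => F (B (iv B y)) := by
    rw [h]
    exact F_near hB hz
  exact h1.eventually h2

theorem tr_of {A B : E n → X} (hB : Box B) {y z : E n} (hz : ‖z‖ ≤ 2) (h : A y = B z) :
    tr A B y = z := by
  unfold tr
  rw [h, iv_of hB hz]

/-- the derivative where the radius is positive -/
theorem Mi_deriv_pos {A B : E n → X} (hA : Box A) (hB : Box B) {F : X → E d} (hF : Continuous F)
    {c : E n → ℝ} (hc : Rad c) {y z : E n} (hy : ‖y‖ < 2) (h : A y = B z) (hz : 0 < c z) :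
    HasFDerivAt (fun y => Mi K B F c (A y))
      ((fderiv ℝ (Mol K (fun z => F (B z)) c) z).comp (fderiv ℝ (tr A B) y)) y := by
  have hz1 : ‖z‖ < 1 := by
    by_contra h
    rw [hc.zero z (not_lt.1 h)] at hz
    exact lt_irrefl _ hz
  have h1 : ContDiffAt ℝ ∞ (Mol K (fun z => F (B z)) c) z :=
    moll_pos K (contOn hB hF) hc.smooth hc.le (fun z hz => hc.zero z hz.le) hz
  have h2 : HasFDerivAt (Mol K (fun z => F (B z)) c)
      (fderiv ℝ (Mol K (fun z => F (B z)) c) z) (tr A B y) := by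
    rw [tr_of hB (by linarith) h]
    exact (h1.differentiableAt (by simp)).hasFDerivAt
  have h3 : HasFDerivAt (tr A B) (fderiv ℝ (tr A B) y) y :=
    ((tr_ld hA hB hy (by linarith) h).contDiffAt.differentiableAt (by simp)).hasFDerivAt
  exact (h2.comp y h3).congr_of_eventuallyEq (Mi_tr K hA hB hc.zero hy (by linarith) h)

/-- the derivative where the radius is zero -/
theorem Mi_deriv_null [T2Space X] {A B : E n → X} (hA : Box A) (hB : Box B) {F : X → E d}
    {c : E n → ℝ} (hc : Rad c) {y : E n} (hy : ‖y‖ < 2)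
    (hLD : LS n d F (A y)) (h0 : ∀ z, A y = B z → c z = 0) :
    HasFDerivAt (fun y => Mi K B F c (A y)) (fderiv ℝ (fun y => F (A y)) y) y := by
  have hFA : HasFDerivAt (fun y => F (A y)) (fderiv ℝ (fun y => F (A y)) y) y :=
    ((ev_smooth hA hy hLD).self_of_nhds.differentiableAt (by simp)).hasFDerivAt
  by_cases hxB : A y ∈ B '' ball 0 2
  · obtain ⟨z, hz, hzy⟩ := hxB
    rw [mem_ball_zero_iff] at hz
    have hLD' : LS n d F (B z) := by
      rw [hzy]
      exact hLD
    obtain ⟨h1, h1'⟩ := moll_null K hc.smooth hc.nonneg (h0 z hzy.symm) (ev_smooth hB hz hLD')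
    have h2 : HasFDerivAt (Mol K (fun z => F (B z)) c)
        (fderiv ℝ (fun z => F (B z)) z) (tr A B y) := by
      rw [tr_of hB hz.le hzy.symm, ← h1']
      exact (h1.differentiableAt (by simp)).hasFDerivAt
    have h3 : HasFDerivAt (tr A B) (fderiv ℝ (tr A B) y) y :=
      ((tr_ld hA hB hy hz hzy.symm).contDiffAt.differentiableAt (by simp)).hasFDerivAt
    have h4 := (h2.comp y h3).congr_of_eventuallyEq (Mi_tr K hA hB hc.zero hy hz hzy.symm)
    have h5 : HasFDerivAt (fun z => F (B z)) (fderiv ℝ (fun z => F (B z)) z) (tr A B y) := by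
      rw [tr_of hB hz.le hzy.symm]
      exact ((ev_smooth hB hz hLD').self_of_nhds.differentiableAt (by simp)).hasFDerivAt
    have h6 := (h5.comp y h3).congr_of_eventuallyEq (F_tr hA hB hy hz hzy.symm)
    rw [h6.fderiv]
    exact h4
  · have hx1 : A y ∉ B '' closedBall 0 1 := fun h => hxB
      (image_mono (closedBall_subset_ball (by norm_num)) h)
    have hev : Mi K B F c =ᶠ[𝓝 (A y)] F := by
      filter_upwards [(box_isCompact hB (by norm_num)).isClosed.isOpen_compl.mem_nhds hx1] with y hy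
      exact Mi_off K hy
    exact hFA.congr_of_eventuallyEq ((hA.ld y (by simpa using hy.le)).continuousAt.eventually hev)

end Pool.Agent.U211.BLV
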