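import Pool.Agent.U211.BLV.AsmB
import Pool.Agent.U211.BL.Glob

/-!
# Retractions onto embedded manifolds
-/

set_option autoImplicit false
set_option linter.unusedSectionVars false

open Set Filter Topology Metric Function MeasureTheory
open scoped Manifold ContDiff

noncomputable section

namespace Pool.Agent.U211.BLV

open Pool.Agent.Y522 Pool.Agent.U211.BL

variable {n d : ℕ} {X Y : Type} [TopologicalSpace X] [ChartedSpace (E n) X]
  [TopologicalSpace Y] [ChartedSpace (E n) Y]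

/-- charts are local diffeomorphisms -/
theorem chart_LD [IsManifold (𝓡 n) ∞ Y] (y : Y) : LD n (chartAt (E n) y) y :=
  ⟨{ toPartialEquiv := (chartAt (E n) y).toPartialEquiv
     open_source := (chartAt (E n) y).open_source
     open_target := (chartAt (E n) y).open_target
     contMDiffOn_toFun := contMDiffOn_chart
     contMDiffOn_invFun := contMDiffOn_chart_symm }, mem_chart_source (E n) y, fun _ _ => rfl⟩

/-- inverse charts are local diffeomorphisms -/
theorem chart_symm_LD [IsManifold (𝓡 n) ∞ Y] (y : Y) :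
    LD n (chartAt (E n) y).symm (chartAt (E n) y y) :=
  ⟨{ toPartialEquiv := (chartAt (E n) y).symm.toPartialEquiv
     open_source := (chartAt (E n) y).open_target
     open_target := (chartAt (E n) y).open_source
     contMDiffOn_toFun := contMDiffOn_chart_symm
     contMDiffOn_invFun := contMDiffOn_chart }, mem_chart_target (E n) y, fun _ _ => rfl⟩

theorem exists_chart [IsManifold (𝓡 n) ∞ Y] (y : Y) : ∃ φ : Y → E n, LD n φ y :=
  ⟨chartAt (E n) y, chart_LD y⟩

/-- an embedding `e` of a manifold in `ℝ^d` together with a smooth retraction of a neighbourhood -/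
structure Tub (n : ℕ) {d : ℕ} {Y : Type} [TopologicalSpace Y] [ChartedSpace (E n) Y]
    (e : Y → E d) (π : E d → Y) : Prop where
  smooth : ContMDiff (𝓡 n) (𝓡 d) ∞ e
  retr : ∀ y, π (e y) = y
  near : ∀ y, ∀ᶠ p in 𝓝 (e y), ContMDiffAt (𝓡 d) (𝓡 n) ∞ π p

/-- the retraction as a map of `ℝ^d` to itself -/
def PP (e : Y → E d) (π : E d → Y) (p : E d) : E d := e (π p)

theorem PP_fix {e : Y → E d} {π : E d → Y} (hT : Tub n e π) (y : Y) : PP e π (e y) = e y := by
  unfold PP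
  rw [hT.retr]

theorem PP_smooth {e : Y → E d} {π : E d → Y} (hT : Tub n e π) {p : E d}
    (hp : ContMDiffAt (𝓡 d) (𝓡 n) ∞ π p) : ContDiffAt ℝ ∞ (PP e π) p :=
  contMDiffAt_iff_contDiffAt.1 ((hT.smooth (π p)).comp p hp)

/-- uniform continuity of the derivative of the retraction -/
theorem PP_unif [CompactSpace Y] {e : Y → E d} {π : E d → Y} (hT : Tub n e π) {ξ : ℝ}
    (hξ : 0 < ξ) : ∃ τ : ℝ, 0 < τ ∧ ∀ y : Y, ∀ p : E d, ‖p - e y‖ ≤ τ →
      ContMDiffAt (𝓡 d) (𝓡 n) ∞ π p ∧ ‖fderiv ℝ (PP e π) p - fderiv ℝ (PP e π) (e y)‖ ≤ ξ := by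
  have h1 : ∀ y : Y, ∃ r : ℝ, 0 < r ∧ ∀ p : E d, ‖p - e y‖ < 2 * r →
      ContMDiffAt (𝓡 d) (𝓡 n) ∞ π p ∧
      ‖fderiv ℝ (PP e π) p - fderiv ℝ (PP e π) (e y)‖ < ξ / 2 := by
    intro y
    have hs : ContDiffAt ℝ ∞ (PP e π) (e y) := PP_smooth hT (hT.near y).self_of_nhds
    have hc : ContinuousAt (fderiv ℝ (PP e π)) (e y) :=
      (hs.fderiv_right (m := 0) (by simp)).continuousAt
    have h2 : ∀ᶠ p in 𝓝 (e y), ‖fderiv ℝ (PP e π) p - fderiv ℝ (PP e π) (e y)‖ < ξ / 2 := by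
      have := Metric.continuousAt_iff'.1 hc (ξ / 2) (by positivity)
      filter_upwards [this] with p hp
      rwa [dist_eq_norm] at hp
    obtain ⟨r, hr, h⟩ := Metric.eventually_nhds_iff_ball.1 ((hT.near y).and h2)
    refine ⟨r / 2, by positivity, fun p hp => h p ?_⟩
    rw [mem_ball, dist_eq_norm]
    linarith
  choose r hr hrr using h1
  have hec : Continuous e := hT.smooth.continuous
  have hcov : ∀ y ∈ (univ : Set Y), e ⁻¹' ball (e y) (r y) ∈ 𝓝 y := fun y _ =>
    hec.continuousAt.preimage_mem_nhds (ball_mem_nhds _ (hr y))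
  obtain ⟨t, ht⟩ := isCompact_univ.elim_nhds_subcover' (fun y _ => e ⁻¹' ball (e y) (r y)) hcov
  obtain ⟨τ, hτ, hτt⟩ := exists_lower' (fun i : t => r i.1.1) (fun i => hr _)
  refine ⟨τ, hτ, fun y p hp => ?_⟩
  obtain ⟨z, hz, hyz⟩ := mem_iUnion₂.1 (ht (mem_univ y))
  have hyz' : ‖e y - e z‖ < r z := by
    have : e y ∈ ball (e z) (r z) := hyz
    rwa [mem_ball, dist_eq_norm] at this
  have hτz : τ ≤ r z := hτt ⟨z, hz⟩
  have h3 := hrr z (e y) (by linarith [hr z])
  have h4 := hrr z p (by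
    have h5 : p - e z = (p - e y) + (e y - e z) := by abel
    rw [h5]
    have := norm_add_le (p - e y) (e y - e (z : Y))
    linarith)
  refine ⟨h4.1, ?_⟩
  have h5 : fderiv ℝ (PP e π) p - fderiv ℝ (PP e π) (e y) =
      (fderiv ℝ (PP e π) p - fderiv ℝ (PP e π) (e z)) -
        (fderiv ℝ (PP e π) (e y) - fderiv ℝ (PP e π) (e z)) := by abel
  rw [h5]
  have h6 := norm_sub_le (fderiv ℝ (PP e π) p - fderiv ℝ (PP e π) (e z))
    (fderiv ℝ (PP e π) (e y) - fderiv ℝ (PP e π) (e (z : Y)))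
  linarith [h3.2, h4.2]

theorem PP_bound [CompactSpace Y] {e : Y → E d} {π : E d → Y} (hT : Tub n e π) :
    ∃ CQ : ℝ, 0 ≤ CQ ∧ ∀ y : Y, ‖fderiv ℝ (PP e π) (e y) - ContinuousLinearMap.id ℝ (E d)‖ ≤ CQ := by
  have hc : Continuous fun y => fderiv ℝ (PP e π) (e y) - ContinuousLinearMap.id ℝ (E d) := by
    rw [continuous_iff_continuousAt]
    intro y
    have hs : ContDiffAt ℝ ∞ (PP e π) (e y) := PP_smooth hT (hT.near y).self_of_nhds
    have hc : ContinuousAt (fderiv ℝ (PP e π)) (e y) :=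
      (hs.fderiv_right (m := 0) (by simp)).continuousAt
    exact (hc.comp hT.smooth.continuous.continuousAt).sub continuousAt_const
  obtain ⟨C, hC⟩ := isCompact_univ.exists_bound_of_continuousOn hc.continuousOn
  exact ⟨|C|, abs_nonneg _, fun y => (hC y (mem_univ y)).trans (le_abs_self _)⟩

/-- the derivative of the retraction is close to the identity on secants -/
theorem QC_of {e : Y → E d} {π : E d → Y} (hT : Tub n e π) {ξ τ CQ R : ℝ} (hξ : 0 ≤ ξ)
    (hτ : ∀ y : Y, ∀ p : E d, ‖p - e y‖ ≤ τ →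
      ContMDiffAt (𝓡 d) (𝓡 n) ∞ π p ∧ ‖fderiv ℝ (PP e π) p - fderiv ℝ (PP e π) (e y)‖ ≤ ξ)
    (hCQ : ∀ y : Y, ‖fderiv ℝ (PP e π) (e y) - ContinuousLinearMap.id ℝ (E d)‖ ≤ CQ)
    (hR : R ≤ τ) (g : X → Y) (x : X) : QC (fun x => e (g x)) x R ξ CQ
      (fderiv ℝ (PP e π) (e (g x)) - ContinuousLinearMap.id ℝ (E d)) := by
  refine ⟨hξ, hCQ _, ?_⟩
  intro p q hp hq
  have h1 := Convex.norm_image_sub_le_of_norm_hasFDerivWithin_le' (𝕜 := ℝ) (f := PP e π)
    (f' := fderiv ℝ (PP e π)) (φ := fderiv ℝ (PP e π) (e (g x))) (s := closedBall (e (g x)) τ)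
    (x := e (g q)) (y := e (g p)) (C := ξ)
    (fun z hz => by
      rw [mem_closedBall, dist_eq_norm] at hz
      exact ((PP_smooth hT (hτ _ z hz).1).differentiableAt (by simp)).hasFDerivAt.hasFDerivWithinAt)
    (fun z hz => by
      rw [mem_closedBall, dist_eq_norm] at hz
      exact (hτ _ z hz).2) (convex_closedBall _ _)
    (by
      rw [mem_closedBall, dist_eq_norm]
      exact hq.trans hR)
    (by
      rw [mem_closedBall, dist_eq_norm]
      exact hp.trans hR)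
  rw [PP_fix hT, PP_fix hT] at h1
  have h2 : (fderiv ℝ (PP e π) (e (g x)) - ContinuousLinearMap.id ℝ (E d)) (e (g p) - e (g q)) =
      -(e (g p) - e (g q) - fderiv ℝ (PP e π) (e (g x)) (e (g p) - e (g q))) := by
    simp
  rw [h2, norm_neg]
  exact h1

/-- the trivial case -/
theorem QC_id (F : X → E d) (x : X) (R : ℝ) : QC F x R 1 1 (ContinuousLinearMap.id ℝ (E d)) :=
  ⟨zero_le_one, ContinuousLinearMap.norm_id_le, fun p q _ _ => by simp⟩

/-- from the injectivity of the differential of `e ∘ f` -/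
theorem LD_of_imm [IsManifold (𝓡 n) ∞ Y] {e : Y → E d} (he : ContMDiff (𝓡 n) (𝓡 d) ∞ e)
    {f : E n → Y} {y : E n} (hf : ∀ᶠ w in 𝓝 y, ContMDiffAt (𝓡 n) (𝓡 n) ∞ f w)
    {W : E n →L[ℝ] E d} (hW : HasFDerivAt (fun w => e (f w)) W y)
    (h : ∀ u : E n, ‖u‖ = 1 → W u ≠ 0) : LD n f y := by
  obtain ⟨φ, hφ⟩ := exists_chart (n := n) (f y)
  obtain ⟨p, hp1, hp2, hp3, hp4⟩ := hφ.exists_inverse
  have hfc : ContinuousAt f y := hf.self_of_nhds.continuousAt
  have h1 : ∀ᶠ w in 𝓝 y, ContDiffAt ℝ ∞ (fun w => φ (f w)) w := by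
    filter_upwards [hf, hfc.eventually hφ.eventually] with w hw1 hw2
    exact contMDiffAt_iff_contDiffAt.1 (hw2.contMDiffAt.comp w hw1)
  have h2 : HasFDerivAt (fun w => φ (f w)) (fderiv ℝ (fun w => φ (f w)) y) y :=
    (h1.self_of_nhds.differentiableAt (by simp)).hasFDerivAt
  have h3 : ContDiffAt ℝ ∞ (fun z => e (p z)) (φ (f y)) :=
    contMDiffAt_iff_contDiffAt.1 ((he _).comp _ hp1.contMDiffAt)
  have h4 : HasFDerivAt (fun z => e (p z)) (fderiv ℝ (fun z => e (p z)) (φ (f y))) (φ (f y)) :=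
    (h3.differentiableAt (by simp)).hasFDerivAt
  have h5 := h4.comp y h2
  have h6 : (fun w => e (f w)) =ᶠ[𝓝 y] (fun z => e (p z)) ∘ fun w => φ (f w) := by
    filter_upwards [hfc.eventually hp3] with w hw
    simp only [comp_apply]
    rw [hw]
  have h7 := hW.unique (h5.congr_of_eventuallyEq h6)
  have h8 : LD n (fun w => φ (f w)) y := by
    apply LD_of_pos h1
    intro u hu h9
    apply h u hu
    rw [h7, ContinuousLinearMap.comp_apply, h9, map_zero]
  have h9 : LD n (fun w => p (φ (f w))) y := LD.comp_fun hp1 h8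
  refine h9.congr ?_
  filter_upwards [hfc.eventually hp3] with w hw
  rw [hw]

/-- the differential of `e ∘ f` is injective -/
theorem imm_of_LD [IsManifold (𝓡 n) ∞ Y] {e : Y → E d} {π : E d → Y} (hT : Tub n e π)
    {f : E n → Y} {y : E n} (hf : LD n f y) {W : E n →L[ℝ] E d}
    (hW : HasFDerivAt (fun w => e (f w)) W y) {u : E n} (hu : u ≠ 0) : W u ≠ 0 := by
  obtain ⟨φ, hφ⟩ := exists_chart (n := n) (f y)
  intro h0
  have h1 : LD n (fun w => φ (f w)) y := LD.comp_fun hφ hf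
  obtain ⟨L, hL⟩ := h1.exists_equiv
  have h2 : ContMDiffAt (𝓡 d) (𝓡 n) ∞ π (e (f y)) := (hT.near _).self_of_nhds
  have h3 : ContDiffAt ℝ ∞ (fun p => φ (π p)) (e (f y)) := by
    apply contMDiffAt_iff_contDiffAt.1
    refine ContMDiffAt.comp (I' := 𝓡 n) (g := φ) (f := π) _ ?_ h2
    rw [hT.retr]
    exact hφ.contMDiffAt
  have h4 : HasFDerivAt (fun p => φ (π p)) (fderiv ℝ (fun p => φ (π p)) (e (f y))) (e (f y)) :=
    (h3.differentiableAt (by simp)).hasFDerivAt
  have h5 := h4.comp y hW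
  have h6 : ((fun p => φ (π p)) ∘ fun w => e (f w)) = fun w => φ (f w) := by
    funext w
    simp only [comp_apply]
    rw [hT.retr]
  rw [h6] at h5
  have h7 := hL.unique h5
  apply hu
  apply L.injective
  have h8 : (L : E n →L[ℝ] E n) u = 0 := by
    rw [h7, ContinuousLinearMap.comp_apply, h0, map_zero]
  rw [map_zero]
  exact h8

end Pool.Agent.U211.BLV
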